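import Mathlib

/-!
# Summation by parts with decreasing and with increasing weights

A domination principle: if the partial sums of `u` are bounded by those of `v`, so are the sums with a
decreasing weight.
-/

set_option autoImplicit false

open Finset

namespace Pool.Agent.U909.PW

/-- summation by parts -/
lemma parts (w u : ℕ → ℝ) (Y : ℕ) (hY : 1 ≤ Y) :
    ∑ t ∈ Ioc 0 Y, w t * u t = w Y * ∑ t ∈ Ioc 0 Y, u t +
      ∑ t ∈ Ico 1 Y, (w t - w (t + 1)) * ∑ s ∈ Ioc 0 t, u s := by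
  induction Y, hY using Nat.le_induction with
  | base => simp
  | succ Y hY ih =>
    rw [← Finset.insert_Ioc_right_eq_Ioc_add_one (Nat.zero_le Y), Finset.sum_insert (by simp),
      Finset.sum_insert (by simp), ih, Finset.sum_Ico_succ_top hY]
    ring

/-- **The domination principle.** -/
theorem dom (w u v : ℕ → ℝ) (hw0 : ∀ t, 1 ≤ t → 0 ≤ w t) (hw : ∀ t, 1 ≤ t → w (t + 1) ≤ w t) (Y : ℕ)
    (h : ∀ t, 1 ≤ t → t ≤ Y → |∑ s ∈ Ioc 0 t, u s| ≤ ∑ s ∈ Ioc 0 t, v s) :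
    |∑ t ∈ Ioc 0 Y, w t * u t| ≤ ∑ t ∈ Ioc 0 Y, w t * v t := by
  rcases Nat.eq_zero_or_pos Y with rfl | hY
  · simp
  rw [parts w u Y hY, parts w v Y hY]
  refine (abs_add_le _ _).trans (add_le_add ?_ ?_)
  · rw [abs_mul, abs_of_nonneg (hw0 Y hY)]
    exact mul_le_mul_of_nonneg_left (h Y hY le_rfl) (hw0 Y hY)
  · refine (Finset.abs_sum_le_sum_abs _ _).trans (Finset.sum_le_sum fun t ht => ?_)
    rw [mem_Ico] at ht
    have h1 := hw t ht.1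
    rw [abs_mul, abs_of_nonneg (by linarith)]
    exact mul_le_mul_of_nonneg_left (h t ht.1 ht.2.le) (by linarith)

/-- increasing weights -/
theorem incr (w u : ℕ → ℝ) (hw0 : ∀ t, 1 ≤ t → 0 ≤ w t) (hw : ∀ t, 1 ≤ t → w t ≤ w (t + 1)) (Y : ℕ) (hY : 1 ≤ Y)
    (B : ℝ) (hB : 0 ≤ B) (h : ∀ t, 1 ≤ t → t ≤ Y → |∑ s ∈ Ioc 0 t, u s| ≤ B) :
    |∑ t ∈ Ioc 0 Y, w t * u t| ≤ 2 * B * w Y := by
  rw [parts w u Y hY]
  have h1 : |w Y * ∑ t ∈ Ioc 0 Y, u t| ≤ B * w Y := by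
    rw [abs_mul, abs_of_nonneg (hw0 Y hY), mul_comm]
    exact mul_le_mul_of_nonneg_right (h Y hY le_rfl) (hw0 Y hY)
  have h2 : |∑ t ∈ Ico 1 Y, (w t - w (t + 1)) * ∑ s ∈ Ioc 0 t, u s| ≤ ∑ t ∈ Ico 1 Y, (w (t + 1) - w t) * B := by
    refine (Finset.abs_sum_le_sum_abs _ _).trans (Finset.sum_le_sum fun t ht => ?_)
    rw [mem_Ico] at ht
    have h1 := hw t ht.1
    rw [abs_mul, abs_of_nonpos (by linarith), neg_sub]
    exact mul_le_mul_of_nonneg_left (h t ht.1 ht.2.le) (by linarith)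
  have h3 : ∑ t ∈ Ico 1 Y, (w (t + 1) - w t) * B = (w Y - w 1) * B := by
    rw [← Finset.sum_mul, Finset.sum_Ico_eq_sub _ hY]
    congr 1
    rw [Finset.sum_range_sub, Finset.sum_range_one]
    ring
  have h4 := hw0 1 le_rfl
  have h5 := abs_add_le (w Y * ∑ t ∈ Ioc 0 Y, u t) (∑ t ∈ Ico 1 Y, (w t - w (t + 1)) * ∑ s ∈ Ioc 0 t, u s)
  have h7 := mul_nonneg h4 hB
  nlinarith

end Pool.Agent.U909.PW
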