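import Pool.Agent.Y854.ST.Equiv
import Pool.Agent.U909.PW.Abel

/-!
# Sums with the weight `(1 / c) t ^ (1 / c - 1)`

From the partial sums of `u` to the weighted sums and back: savings of powers of the logarithm, and of powers.
-/

set_option autoImplicit false

open Finset Filter Topology

namespace Pool.Agent.U909.PW

open Pool.Agent.Y854.PS (wt wt_nonneg wt_anti)
open Pool.Agent.Y854.ST (sum_wt_up sum_wt_low)

/-- partial sums as small as in the theorem of Siegel and Walfisz -/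
def SW (u : ℕ → ℝ) : Prop := (∃ C : ℝ, ∀ t : ℕ, |∑ s ∈ Ioc 0 t, u s| ≤ C * t) ∧
  ∀ U : ℕ, ∃ t0 : ℕ, ∀ t : ℕ, t0 ≤ t → |∑ s ∈ Ioc 0 t, u s| ≤ t / Real.log t ^ U

/-- powers of the logarithm are smaller than powers -/
lemma log_pow_le {a : ℝ} (ha : 0 < a) (U : ℕ) (K : ℝ) : ∀ᶠ N : ℕ in atTop, K * Real.log N ^ U ≤ (N : ℝ) ^ a := by
  have h1 : (fun x : ℝ => Real.log x ^ (U : ℝ)) =o[atTop] fun x : ℝ => x ^ a := isLittleO_log_rpow_rpow_atTop _ ha
  have h2 := (h1.comp_tendsto tendsto_natCast_atTop_atTop).def (show 0 < 1 / (|K| + 1) by positivity)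
  filter_upwards [h2, eventually_ge_atTop 1] with N hN hN1
  simp only [Function.comp_apply, Real.norm_eq_abs, Real.rpow_natCast] at hN
  have h3 : (0 : ℝ) ≤ (N : ℝ) ^ a := by positivity
  rw [abs_of_nonneg h3] at hN
  have h4 : 0 ≤ Real.log N := Real.log_natCast_nonneg _
  rw [abs_of_nonneg (by positivity), one_div_mul_eq_div, le_div_iff₀ (by positivity)] at hN
  have h5 := le_abs_self K
  have h6 : (0 : ℝ) ≤ Real.log N ^ U := by positivity
  nlinarith

/-- **Weighted sums, logarithmic savings.** -/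
theorem wt_log {c : ℝ} (hc : 1 < c) (u : ℕ → ℝ) (hu : SW u) (U : ℕ) : ∃ Y0 : ℕ, ∀ Y : ℕ, Y0 ≤ Y →
    |∑ t ∈ Ioc 0 Y, wt c t * u t| ≤ (Y : ℝ) ^ (1 / c) / Real.log Y ^ U := by
  have hc0 : 0 < c := by linarith
  obtain ⟨⟨C0, hC0⟩, h2⟩ := hu
  obtain ⟨t0, ht0⟩ := h2 (U + 1)
  set C : ℝ := |C0| with hC
  have hC1 : 0 ≤ C := abs_nonneg _
  have hCt : ∀ t : ℕ, |∑ s ∈ Ioc 0 t, u s| ≤ C * t := fun t =>
    (hC0 t).trans (mul_le_mul_of_nonneg_right (le_abs_self _) (Nat.cast_nonneg _))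
  have hlog : Tendsto (fun N : ℕ => Real.log N) atTop atTop := Real.tendsto_log_atTop.comp tendsto_natCast_atTop_atTop
  obtain ⟨Y1, hY1⟩ := ((hlog.eventually (eventually_ge_atTop ((2 : ℝ) ^ (U + 2)))).and
    (log_pow_le (show 0 < 1 / (2 * c) by positivity) U (2 * C))).exists_forall_of_atTop
  refine ⟨max Y1 (max (t0 ^ 2) 2), fun Y hY => ?_⟩
  have hYY1 : Y1 ≤ Y := (le_max_left _ _).trans hY
  have hYt0 : t0 ^ 2 ≤ Y := ((le_max_left _ _).trans (le_max_right _ _)).trans hY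
  have hY2 : 2 ≤ Y := ((le_max_right _ _).trans (le_max_right _ _)).trans hY
  obtain ⟨hL, hP⟩ := hY1 Y hYY1
  have hY0 : (0 : ℝ) < Y := by exact_mod_cast (by omega : 0 < Y)
  set L := Real.log Y with hLdef
  have hL0 : 0 < L := lt_of_lt_of_le (by positivity) hL
  set T : ℕ := Nat.sqrt Y with hT
  have hTt0 : t0 ≤ T := by
    rw [hT, Nat.le_sqrt, ← pow_two]
    exact hYt0
  set B : ℝ := 2 ^ (U + 1) / L ^ (U + 1) with hB
  have hB0 : 0 ≤ B := by positivity
  have key := dom (wt c) u (fun s => B + C * (if s ≤ T then 1 else 0)) (fun t _ => wt_nonneg hc t)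
    (fun t ht => wt_anti hc (by omega) (by omega)) Y (fun t ht1 htY => by
      rw [Finset.sum_add_distrib, Finset.sum_const, Nat.card_Ioc, nsmul_eq_mul, Nat.sub_zero, ← Finset.mul_sum,
        Finset.sum_boole]
      by_cases htT : t ≤ T
      · have e : (Ioc 0 t).filter (fun s => s ≤ T) = Ioc 0 t := by
          apply Finset.filter_true_of_mem
          intro s hs
          rw [mem_Ioc] at hs
          omega
        rw [e, Nat.card_Ioc, Nat.sub_zero]
        have := hCt t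
        have h3 : 0 ≤ (t : ℝ) * B := by positivity
        linarith
      · push Not at htT
        have h3 := ht0 t (by omega)
        have h4 : Y < t * t := by
          rw [← Nat.sqrt_lt]
          exact htT
        have h5 : L ≤ 2 * Real.log t := by
          have h6 : (Y : ℝ) ≤ (t : ℝ) ^ 2 := by
            rw [pow_two]
            exact_mod_cast h4.le
          have h7 := Real.log_le_log hY0 h6
          rw [Real.log_pow] at h7
          push_cast at h7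
          exact h7
        have h8 : (t : ℝ) / Real.log t ^ (U + 1) ≤ t * B := by
          rw [hB, ← mul_div_assoc, div_le_div_iff₀ (by apply pow_pos; linarith) (by positivity)]
          have h9 : L ^ (U + 1) ≤ 2 ^ (U + 1) * Real.log t ^ (U + 1) := by
            rw [← mul_pow]
            exact pow_le_pow_left₀ hL0.le h5 _
          have h10 := mul_le_mul_of_nonneg_left h9 (Nat.cast_nonneg (α := ℝ) t)
          linarith
        have h9 : 0 ≤ C * (((Ioc 0 t).filter (fun s => s ≤ T)).card : ℝ) := by positivity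
        linarith)
  refine key.trans ?_
  have e1 : ∑ t ∈ Ioc 0 Y, wt c t * (B + C * (if t ≤ T then 1 else 0)) =
      B * ∑ t ∈ Ioc 0 Y, wt c t + C * ∑ t ∈ (Ioc 0 Y).filter (fun t => t ≤ T), wt c t := by
    rw [Finset.mul_sum, Finset.mul_sum, Finset.sum_filter, ← Finset.sum_add_distrib]
    apply Finset.sum_congr rfl
    intro t _
    split_ifs
    · ring
    · ring
  have e2 : (Ioc 0 Y).filter (fun t => t ≤ T) ⊆ Ioc 0 T := by
    intro t ht
    rw [mem_filter, mem_Ioc] at ht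
    rw [mem_Ioc]
    exact ⟨ht.1.1, ht.2⟩
  have e3 := Finset.sum_le_sum_of_subset_of_nonneg e2 (fun t _ _ => wt_nonneg hc t)
  have e4 := sum_wt_up hc T
  have e5 := sum_wt_up hc Y
  have e6 : (T : ℝ) ^ (1 / c) ≤ (Y : ℝ) ^ (1 / (2 * c)) := by
    have h3 : (T : ℝ) ^ (1 / c) = ((T : ℝ) ^ 2) ^ (1 / (2 * c)) := by
      rw [← Real.rpow_natCast, ← Real.rpow_mul (Nat.cast_nonneg _)]
      congr 1
      push_cast
      field_simp
    rw [h3]
    apply Real.rpow_le_rpow (by positivity) _ (by positivity)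
    have h4 : T * T ≤ Y := Nat.sqrt_le Y
    rw [pow_two]
    exact_mod_cast h4
  rw [e1]
  have f1 : B * ∑ t ∈ Ioc 0 Y, wt c t ≤ (1 / 2) * ((Y : ℝ) ^ (1 / c) / L ^ U) := by
    refine (mul_le_mul_of_nonneg_left e5 hB0).trans ?_
    rw [hB]
    have h3 : (2 : ℝ) ^ (U + 1) / L ^ (U + 1) ≤ (1 / 2) * (1 / L ^ U) := by
      rw [one_div_mul_one_div, div_le_div_iff₀ (by positivity) (by positivity), one_mul, pow_succ L U]
      have h4 := mul_le_mul_of_nonneg_left hL (show 0 ≤ L ^ U by positivity)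
      calc (2 : ℝ) ^ (U + 1) * (2 * L ^ U) = L ^ U * 2 ^ (U + 2) := by ring
        _ ≤ L ^ U * L := h4
    calc (2 : ℝ) ^ (U + 1) / L ^ (U + 1) * (Y : ℝ) ^ (1 / c) ≤ (1 / 2) * (1 / L ^ U) * (Y : ℝ) ^ (1 / c) :=
          mul_le_mul_of_nonneg_right h3 (by positivity)
      _ = _ := by ring
  have f2 : C * ∑ t ∈ (Ioc 0 Y).filter (fun t => t ≤ T), wt c t ≤ (1 / 2) * ((Y : ℝ) ^ (1 / c) / L ^ U) := by
    refine (mul_le_mul_of_nonneg_left (e3.trans (e4.trans e6)) hC1).trans ?_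
    rw [← mul_div_assoc, le_div_iff₀ (by positivity)]
    have h3 : (Y : ℝ) ^ (1 / c) = (Y : ℝ) ^ (1 / (2 * c)) * (Y : ℝ) ^ (1 / (2 * c)) := by
      rw [← Real.rpow_add hY0]
      congr 1
      field_simp
      norm_num
    rw [h3]
    have h4 := mul_le_mul_of_nonneg_left hP (show 0 ≤ (Y : ℝ) ^ (1 / (2 * c)) by positivity)
    linarith
  linarith

/-- **Weighted sums, power savings.** -/
theorem wt_pow {c : ℝ} (hc : 1 < c) (u : ℕ → ℝ) (δ C : ℝ) (hδ : 0 < δ) (hδc : δ < 1 / c) (hC : 0 ≤ C)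
    (h : ∀ t : ℕ, 1 ≤ t → |∑ s ∈ Ioc 0 t, u s| ≤ C * (t : ℝ) ^ (1 - δ)) : ∃ K : ℝ, 0 ≤ K ∧ ∀ Y : ℕ,
    |∑ t ∈ Ioc 0 Y, wt c t * u t| ≤ K * (Y : ℝ) ^ (1 / c - δ) := by
  have hc0 : 0 < c := by linarith
  have hb : 0 < 1 / c - δ := by linarith
  have hc1 : 1 / c < 1 := by rw [div_lt_one hc0]; exact hc
  set c' : ℝ := 1 / (1 / c - δ) with hc'
  have hc'1 : 1 < c' := by
    rw [hc', lt_div_iff₀ hb]
    linarith
  have e' : 1 / c' = 1 / c - δ := by rw [hc', one_div_one_div]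
  refine ⟨C * c', by positivity, fun Y => ?_⟩
  have key := dom (wt c) u (fun s => C * (s : ℝ) ^ (-δ)) (fun t _ => wt_nonneg hc t)
    (fun t ht => wt_anti hc (by omega) (by omega)) Y (fun t ht1 htY => by
      refine (h t ht1).trans ?_
      rw [← Finset.mul_sum]
      apply mul_le_mul_of_nonneg_left _ hC
      have ht0 : (0 : ℝ) < t := by exact_mod_cast (by omega : 0 < t)
      have h1 : ∑ s ∈ Ioc 0 t, (t : ℝ) ^ (-δ) ≤ ∑ s ∈ Ioc 0 t, (s : ℝ) ^ (-δ) := by
        apply Finset.sum_le_sum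
        intro s hs
        rw [mem_Ioc] at hs
        exact Real.rpow_le_rpow_of_nonpos (by exact_mod_cast hs.1) (by exact_mod_cast hs.2) (by linarith)
      refine le_trans (le_of_eq ?_) h1
      rw [Finset.sum_const, Nat.card_Ioc, Nat.sub_zero, nsmul_eq_mul, sub_eq_add_neg, Real.rpow_add ht0, Real.rpow_one])
  refine key.trans ?_
  have e1 : ∑ t ∈ Ioc 0 Y, wt c t * (C * (t : ℝ) ^ (-δ)) = (C * (c' / c)) * ∑ t ∈ Ioc 0 Y, wt c' t := by
    rw [Finset.mul_sum]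
    apply Finset.sum_congr rfl
    intro t ht
    rw [mem_Ioc] at ht
    have ht0 : (0 : ℝ) < t := by exact_mod_cast ht.1
    unfold wt
    rw [e']
    have h1 : (t : ℝ) ^ (1 / c - δ - 1) = (t : ℝ) ^ (1 / c - 1) * (t : ℝ) ^ (-δ) := by
      rw [← Real.rpow_add ht0]
      congr 1
      ring
    rw [h1]
    have h2 : c' * (1 / c - δ) = 1 := by rw [hc', one_div_mul_cancel hb.ne']
    calc 1 / c * (t : ℝ) ^ (1 / c - 1) * (C * (t : ℝ) ^ (-δ)) =
        C * (1 / c) * ((t : ℝ) ^ (1 / c - 1) * (t : ℝ) ^ (-δ)) * 1 := by ring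
      _ = C * (1 / c) * ((t : ℝ) ^ (1 / c - 1) * (t : ℝ) ^ (-δ)) * (c' * (1 / c - δ)) := by rw [h2]
      _ = _ := by ring
  rw [e1]
  have h3 := sum_wt_up hc'1 Y
  rw [e'] at h3
  have h4 : C * (c' / c) ≤ C * c' := by
    apply mul_le_mul_of_nonneg_left _ hC
    rw [div_le_iff₀ hc0]
    nlinarith
  calc (C * (c' / c)) * ∑ t ∈ Ioc 0 Y, wt c' t ≤ (C * (c' / c)) * (Y : ℝ) ^ (1 / c - δ) :=
        mul_le_mul_of_nonneg_left h3 (by positivity)
    _ ≤ _ := mul_le_mul_of_nonneg_right h4 (by positivity)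

/-- **From weighted sums back to partial sums.** -/
theorem unwt_pow {c : ℝ} (hc : 1 < c) (u : ℕ → ℝ) (β C : ℝ) (hβ : 0 ≤ β) (hC : 0 ≤ C)
    (h : ∀ Y : ℕ, 1 ≤ Y → |∑ t ∈ Ioc 0 Y, wt c t * u t| ≤ C * (Y : ℝ) ^ β) (Y : ℕ) (hY : 1 ≤ Y) :
    |∑ t ∈ Ioc 0 Y, u t| ≤ 2 * C * c * (Y : ℝ) ^ (β + 1 - 1 / c) := by
  have hc0 : 0 < c := by linarith
  have hc1 : 1 / c < 1 := by rw [div_lt_one hc0]; exact hc
  have hY0 : (0 : ℝ) < Y := by exact_mod_cast (by omega : 0 < Y)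
  have key := incr (fun t => c * (t : ℝ) ^ (1 - 1 / c)) (fun t => wt c t * u t) (fun t _ => by positivity)
    (fun t ht => by
      apply mul_le_mul_of_nonneg_left _ hc0.le
      apply Real.rpow_le_rpow (Nat.cast_nonneg _) (by push_cast; linarith) (by linarith)) Y hY (C * (Y : ℝ) ^ β)
    (by positivity) (fun t ht1 htY => by
      refine (h t ht1).trans (mul_le_mul_of_nonneg_left ?_ hC)
      exact Real.rpow_le_rpow (Nat.cast_nonneg _) (by exact_mod_cast htY) hβ)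
  have e1 : ∑ t ∈ Ioc 0 Y, c * (t : ℝ) ^ (1 - 1 / c) * (wt c t * u t) = ∑ t ∈ Ioc 0 Y, u t := by
    apply Finset.sum_congr rfl
    intro t ht
    rw [mem_Ioc] at ht
    have ht0 : (0 : ℝ) < t := by exact_mod_cast ht.1
    unfold wt
    have h1 : (t : ℝ) ^ (1 - 1 / c) * (t : ℝ) ^ (1 / c - 1) = 1 := by
      rw [← Real.rpow_add ht0]
      simp
    calc c * (t : ℝ) ^ (1 - 1 / c) * (1 / c * (t : ℝ) ^ (1 / c - 1) * u t) =
        (c * (1 / c)) * ((t : ℝ) ^ (1 - 1 / c) * (t : ℝ) ^ (1 / c - 1)) * u t := by ring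
      _ = u t := by rw [h1, mul_one_div_cancel hc0.ne']; ring
  rw [e1] at key
  refine key.trans (le_of_eq ?_)
  have h2 : (Y : ℝ) ^ (β + 1 - 1 / c) = (Y : ℝ) ^ β * (Y : ℝ) ^ (1 - 1 / c) := by
    rw [← Real.rpow_add hY0]
    congr 1
    ring
  rw [h2]
  ring

end Pool.Agent.U909.PW
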