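import Pool.Agent.H373R2.T7.LamMaj
import Pool.Agent.U909.PW.Wt

/-!
# The primes in an arithmetic progression, shifted
-/

set_option autoImplicit false

open Finset Filter Topology

namespace Pool.Agent.U909.PW

/-- `log x` at the primes `x ≡ r mod q`, `0` at the other integers -/
noncomputable def lp (q : ℕ) (r x : ℤ) : ℝ := if x.toNat.Prime ∧ x ≡ r [ZMOD q] then Real.log x else 0

lemma lp_nonneg (q : ℕ) (r x : ℤ) : 0 ≤ lp q r x := by
  unfold lp
  split_ifs with h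
  · have h1 := h.1.one_lt
    have h2 : (1 : ℤ) ≤ x := by omega
    exact Real.log_nonneg (by exact_mod_cast h2)
  · exact le_rfl

lemma lp_le (q : ℕ) (r x : ℤ) : lp q r x ≤ Real.log (x.natAbs + 1) := by
  unfold lp
  split_ifs with h
  · have h1 := h.1.one_lt
    have h2 : (1 : ℤ) ≤ x := by omega
    have h3 : (x : ℝ) = (x.natAbs : ℝ) := by
      have : x = (x.natAbs : ℤ) := by omega
      rw [this]
      simp
    rw [h3]
    apply Real.log_le_log
    · have : 0 < x.natAbs := by omega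
      exact_mod_cast this
    · linarith
  · apply Real.log_nonneg
    have : (0 : ℝ) ≤ (x.natAbs : ℝ) := Nat.cast_nonneg _
    linarith

lemma lp_abs (q : ℕ) (r x : ℤ) : |lp q r x| ≤ Real.log (x.natAbs + 1) := by
  rw [abs_of_nonneg (lp_nonneg q r x)]
  exact lp_le q r x

lemma shift_step (f : ℤ → ℝ) (k : ℤ) (Y : ℕ) : ∑ t ∈ Ioc 0 Y, f ((t : ℤ) + (k + 1)) =
    ∑ t ∈ Ioc 0 Y, f ((t : ℤ) + k) + f (Y + 1 + k) - f (1 + k) := by
  induction Y with
  | zero => simp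
  | succ Y ih =>
    rw [← Finset.insert_Ioc_right_eq_Ioc_add_one (Nat.zero_le Y), Finset.sum_insert (by simp),
      Finset.sum_insert (by simp), ih]
    have e1 : ((Y + 1 : ℕ) : ℤ) + (k + 1) = ((Y + 1 : ℕ) : ℤ) + 1 + k := by ring
    have e2 : ((Y + 1 : ℕ) : ℤ) + k = (Y : ℤ) + 1 + k := by push_cast; ring
    rw [e1, e2]
    ring

lemma shift_up (f : ℤ → ℝ) (hf : ∀ x, |f x| ≤ Real.log (x.natAbs + 1)) (j Y : ℕ) :
    |∑ t ∈ Ioc 0 Y, f ((t : ℤ) + j) - ∑ t ∈ Ioc 0 Y, f t| ≤ 2 * j * Real.log (Y + j + 2) := by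
  induction j with
  | zero => simp
  | succ j ih =>
    push_cast
    rw [shift_step]
    have h1 := hf (Y + 1 + j)
    have h2 := hf (1 + j)
    have e1 : ((Y : ℤ) + 1 + j).natAbs = Y + 1 + j := by omega
    have e2 : ((1 : ℤ) + j).natAbs = 1 + j := by omega
    rw [e1] at h1
    rw [e2] at h2
    push_cast at h1 h2
    have hY : (0 : ℝ) ≤ Y := Nat.cast_nonneg _
    have hj : (0 : ℝ) ≤ j := Nat.cast_nonneg _
    have h3 : Real.log ((Y : ℝ) + 1 + j + 1) ≤ Real.log (Y + (j + 1) + 2) := Real.log_le_log (by positivity) (by linarith)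
    have h4 : Real.log ((1 : ℝ) + j + 1) ≤ Real.log (Y + (j + 1) + 2) := Real.log_le_log (by positivity) (by linarith)
    have h5 : Real.log ((Y : ℝ) + j + 2) ≤ Real.log (Y + (j + 1) + 2) := Real.log_le_log (by positivity) (by linarith)
    have h6 := mul_le_mul_of_nonneg_left h5 (show 0 ≤ 2 * (j : ℝ) by positivity)
    rw [abs_le] at ih h1 h2 ⊢
    constructor <;> linarith [ih.1, ih.2, h1.1, h1.2, h2.1, h2.2]

lemma shift_down (f : ℤ → ℝ) (hf : ∀ x, |f x| ≤ Real.log (x.natAbs + 1)) (j Y : ℕ) :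
    |∑ t ∈ Ioc 0 Y, f ((t : ℤ) + -j) - ∑ t ∈ Ioc 0 Y, f t| ≤ 2 * j * Real.log (Y + j + 2) := by
  induction j with
  | zero => simp
  | succ j ih =>
    have h0 := shift_step f (-(j : ℤ) - 1) Y
    rw [sub_add_cancel] at h0
    have e0 : ∀ t : ℕ, (t : ℤ) + -((j + 1 : ℕ) : ℤ) = t + (-(j : ℤ) - 1) := fun t => by push_cast; ring
    simp only [e0]
    have h1 := hf (Y + 1 + (-(j : ℤ) - 1))
    have h2 := hf (1 + (-(j : ℤ) - 1))
    have e1 : ((Y : ℤ) + 1 + (-(j : ℤ) - 1)).natAbs ≤ Y + j := by omega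
    have e2 : ((1 : ℤ) + (-(j : ℤ) - 1)).natAbs ≤ Y + j := by omega
    have e1' : (((Y : ℤ) + 1 + (-(j : ℤ) - 1)).natAbs : ℝ) ≤ Y + j := by exact_mod_cast e1
    have e2' : (((1 : ℤ) + (-(j : ℤ) - 1)).natAbs : ℝ) ≤ Y + j := by exact_mod_cast e2
    push_cast
    have hY : (0 : ℝ) ≤ Y := Nat.cast_nonneg _
    have hj : (0 : ℝ) ≤ j := Nat.cast_nonneg _
    have h3 := h1.trans (Real.log_le_log (by positivity) (show _ ≤ (Y : ℝ) + (j + 1) + 2 by linarith))
    have h4 := h2.trans (Real.log_le_log (by positivity) (show _ ≤ (Y : ℝ) + (j + 1) + 2 by linarith))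
    have h5 : Real.log ((Y : ℝ) + j + 2) ≤ Real.log (Y + (j + 1) + 2) := Real.log_le_log (by positivity) (by linarith)
    have h6 := mul_le_mul_of_nonneg_left h5 (show 0 ≤ 2 * (j : ℝ) by positivity)
    rw [abs_le] at ih h3 h4 ⊢
    constructor <;> linarith [ih.1, ih.2, h3.1, h3.2, h4.1, h4.2]

lemma shift (f : ℤ → ℝ) (hf : ∀ x, |f x| ≤ Real.log (x.natAbs + 1)) (k : ℤ) (Y : ℕ) :
    |∑ t ∈ Ioc 0 Y, f ((t : ℤ) + k) - ∑ t ∈ Ioc 0 Y, f t| ≤
      2 * k.natAbs * Real.log (Y + k.natAbs + 2) := by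
  rcases Int.natAbs_eq k with h | h
  · have := shift_up f hf k.natAbs Y
    rwa [← h] at this
  · have := shift_down f hf k.natAbs Y
    rwa [← h] at this

/-- the primes in a progression and the von Mangoldt function -/
lemma lp_lam (q c : ℕ) (r : ℤ) (hcr : (c : ℤ) ≡ r [ZMOD q]) (y : ℕ) (hy : 1 ≤ y) :
    |∑ n ∈ (Icc 1 y).filter (fun n => n ≡ c [MOD q]), ArithmeticFunction.vonMangoldt n -
      ∑ t ∈ Ioc 0 y, lp q r t| ≤ 2 * Real.sqrt y * Real.log y := by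
  classical
  have e1 : ∑ t ∈ Ioc 0 y, lp q r t = ∑ n ∈ (Icc 1 y).filter (fun n => n ≡ c [MOD q]),
      (if n.Prime then Real.log n else 0) := by
    rw [Pool.Agent.Y854.ST.Ioc_zero, Finset.sum_filter]
    apply Finset.sum_congr rfl
    intro n _
    unfold lp
    rw [Int.toNat_natCast]
    have h1 : (n : ℤ) ≡ r [ZMOD q] ↔ n ≡ c [MOD q] := by
      rw [← Int.natCast_modEq_iff]
      exact ⟨fun h => h.trans hcr.symm, fun h => h.trans hcr⟩
    by_cases h2 : n ≡ c [MOD q]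
    · have h2' := h1.mpr h2
      by_cases h3 : n.Prime
      · simp [h2, h2', h3]
      · simp [h2, h3]
    · have h2' : ¬ (n : ℤ) ≡ r [ZMOD q] := fun h => h2 (h1.mp h)
      simp [h2, h2']
  have hnn : ∀ n : ℕ, 0 ≤ ArithmeticFunction.vonMangoldt n - (if n.Prime then Real.log n else 0) := by
    intro n
    split_ifs with h
    · rw [ArithmeticFunction.vonMangoldt_apply_prime h, sub_self]
    · rw [sub_zero]
      exact ArithmeticFunction.vonMangoldt_nonneg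
  rw [e1, ← Finset.sum_sub_distrib, abs_of_nonneg (Finset.sum_nonneg fun n _ => hnn n)]
  have h1 : ∑ n ∈ (Icc 1 y).filter (fun n => n ≡ c [MOD q]),
      (ArithmeticFunction.vonMangoldt n - (if n.Prime then Real.log n else 0)) ≤
      ∑ n ∈ Icc 1 y, (ArithmeticFunction.vonMangoldt n - (if n.Prime then Real.log n else 0)) :=
    Finset.sum_le_sum_of_subset_of_nonneg (Finset.filter_subset _ _) (fun n _ _ => hnn n)
  refine h1.trans ?_
  have h2 : ∑ n ∈ Icc 1 y, (ArithmeticFunction.vonMangoldt n - (if n.Prime then Real.log n else 0)) =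
      Chebyshev.psi y - Chebyshev.theta y := by
    rw [Finset.sum_sub_distrib, Chebyshev.psi, Chebyshev.theta, Nat.floor_natCast, ← Finset.sum_filter]
    rfl
  rw [h2]
  exact (le_abs_self _).trans (Chebyshev.abs_psi_sub_theta_le_sqrt_mul_log (by exact_mod_cast hy))

lemma log_le_mul (K : ℕ) (t : ℕ) (ht : 1 ≤ t) : Real.log (t + K + 2) ≤ (K + 3) * t := by
  have h1 : (1 : ℝ) ≤ t := by exact_mod_cast ht
  have h2 := Real.log_le_sub_one_of_pos (show (0 : ℝ) < t + K + 2 by positivity)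
  have hK : (0 : ℝ) ≤ K := Nat.cast_nonneg _
  nlinarith

lemma lp_theta (q : ℕ) (r : ℤ) (y : ℕ) : ∑ t ∈ Ioc 0 y, lp q r t ≤ Real.log 4 * y := by
  classical
  have h1 : ∑ t ∈ Ioc 0 y, lp q r t ≤ Chebyshev.theta y := by
    rw [Chebyshev.theta, Nat.floor_natCast, Finset.sum_filter]
    apply Finset.sum_le_sum
    intro n _
    unfold lp
    rw [Int.toNat_natCast]
    have h0 : 0 ≤ Real.log n := Real.log_natCast_nonneg _
    by_cases h3 : n.Prime
    · by_cases h2 : (n : ℤ) ≡ r [ZMOD q]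
      · simp [h2, h3]
      · simp [h2, h3, h0]
    · simp [h3]
  exact h1.trans (Chebyshev.theta_le_log4_mul_x (Nat.cast_nonneg _))

/-- **The theorem of Siegel and Walfisz for a fixed modulus, shifted.** -/
theorem sw_lp (q : ℕ) (hq : 1 ≤ q) (r : ℤ) (hr : IsCoprime r (q : ℤ)) (k : ℤ) :
    SW (fun t : ℕ => lp q r ((t : ℤ) + k) - 1 / (Nat.totient q : ℝ)) := by
  classical
  have hq0 : (q : ℤ) ≠ 0 := by exact_mod_cast (by omega : q ≠ 0)
  set c : ℕ := (r % q).toNat with hc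
  have hcr0 : (c : ℤ) = r % q := by
    rw [hc, Int.toNat_of_nonneg (Int.emod_nonneg _ hq0)]
  have hcr : (c : ℤ) ≡ r [ZMOD q] := by
    rw [hcr0]
    exact Int.mod_modEq r q
  have hcop : c.Coprime q := by
    rw [← Nat.isCoprime_iff_coprime, hcr0]
    have := hr.add_mul_left_left (-(r / q))
    have e : r % q = r + q * (-(r / q)) := by
      rw [Int.emod_def]
      ring
    rw [e]
    exact this
  set ρ : ℝ := 1 / (Nat.totient q : ℝ) with hρ
  have hφ : 0 < Nat.totient q := Nat.totient_pos.mpr (by omega)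
  have hφ1 : (1 : ℝ) ≤ Nat.totient q := by exact_mod_cast hφ
  have hρ0 : 0 ≤ ρ := by positivity
  have hρ1 : ρ ≤ 1 := by
    rw [hρ, div_le_one (by linarith)]
    exact hφ1
  set K : ℕ := k.natAbs with hK
  have hK0 : (0 : ℝ) ≤ K := Nat.cast_nonneg _
  have hsh := fun t => shift (lp q r) (lp_abs q r) k t
  have hsum : ∀ t : ℕ, ∑ s ∈ Ioc 0 t, (lp q r ((s : ℤ) + k) - ρ) = ∑ s ∈ Ioc 0 t, lp q r ((s : ℤ) + k) - t * ρ := by
    intro t
    rw [Finset.sum_sub_distrib, Finset.sum_const, Nat.card_Ioc, Nat.sub_zero, nsmul_eq_mul]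
  constructor
  · refine ⟨Real.log 4 + 2 * K * (K + 3) + 1, fun t => ?_⟩
    rcases Nat.eq_zero_or_pos t with rfl | ht
    · simp
    rw [hsum]
    have h1 := hsh t
    have h2 := lp_theta q r t
    have h3 := log_le_mul K t ht
    have h4 := mul_le_mul_of_nonneg_left h3 (show 0 ≤ 2 * (K : ℝ) by positivity)
    have h5 : 0 ≤ ∑ s ∈ Ioc 0 t, lp q r ((s : ℤ) + k) := Finset.sum_nonneg fun s _ => lp_nonneg _ _ _
    have ht0 : (0 : ℝ) ≤ t := Nat.cast_nonneg _
    have h6 : (t : ℝ) * ρ ≤ t := by nlinarith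
    have h7 : 0 ≤ (t : ℝ) * ρ := by positivity
    have h8 : 0 ≤ Real.log 4 * t + 2 * K * ((K + 3) * t) := by
      have : 0 ≤ Real.log 4 := Real.log_nonneg (by norm_num)
      positivity
    rw [abs_le] at h1 ⊢
    constructor <;> nlinarith [h1.1, h1.2]
  · intro U
    obtain ⟨N1, h1⟩ := Pool.Agent.H373R2.T7.lam_ap 1 (U + 1)
    have hlog : Tendsto (fun N : ℕ => Real.log N) atTop atTop := Real.tendsto_log_atTop.comp tendsto_natCast_atTop_atTop
    obtain ⟨N2, h2⟩ := ((((hlog.eventually (eventually_ge_atTop (max 3 (q : ℝ)))).and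
      (log_pow_le one_pos (U + 1) (12 * K))).and (log_pow_le (show (0 : ℝ) < 1 / 2 by norm_num) (U + 1) 6)).and
      (eventually_ge_atTop (K + 3))).exists_forall_of_atTop
    refine ⟨max N1 N2, fun t ht => ?_⟩
    have htN1 : N1 ≤ t := (le_max_left _ _).trans ht
    obtain ⟨⟨⟨b1, b2⟩, b3⟩, b4⟩ := h2 t ((le_max_right _ _).trans ht)
    have ht1 : 1 ≤ t := by omega
    have ht0 : (0 : ℝ) < t := by exact_mod_cast (by omega : 0 < t)
    set L := Real.log t with hL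
    have hL3 : 3 ≤ L := (le_max_left _ _).trans b1
    have hLq : (q : ℝ) ≤ L := (le_max_right _ _).trans b1
    have hL0 : 0 < L := by linarith
    have c1 := h1 t htN1 q hq (by rw [pow_one]; exact hLq) c t le_rfl
    rw [if_pos hcop] at c1
    have c2 := lp_lam q c r hcr t ht1
    have c3 := hsh t
    rw [hsum]
    have hLU : 0 < L ^ U := by positivity
    have f1 : 2 * K * Real.log (t + K + 2) ≤ (1 / 3) * (t / L ^ U) := by
      have h3 : Real.log ((t : ℝ) + K + 2) ≤ 2 * L := by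
        rw [hL]
        have h4 : 2 * Real.log (t : ℝ) = Real.log ((t : ℝ) ^ 2) := by rw [Real.log_pow]; norm_num
        rw [h4]
        apply Real.log_le_log (by positivity)
        have h5 : (K : ℝ) + 3 ≤ t := by exact_mod_cast b4
        nlinarith
      rw [← mul_div_assoc, le_div_iff₀ hLU]
      rw [Real.rpow_one, pow_succ] at b2
      have h4 := mul_le_mul_of_nonneg_left h3 (show 0 ≤ 2 * K * L ^ U by positivity)
      linarith
    have f2 : 2 * Real.sqrt t * L ≤ (1 / 3) * (t / L ^ U) := by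
      rw [← mul_div_assoc, le_div_iff₀ hLU]
      rw [← Real.sqrt_eq_rpow, pow_succ] at b3
      have h4 := mul_le_mul_of_nonneg_left b3 (Real.sqrt_nonneg (t : ℝ))
      rw [Real.mul_self_sqrt ht0.le] at h4
      linarith
    have f3 : (t : ℝ) / L ^ (U + 1) ≤ (1 / 3) * (t / L ^ U) := by
      rw [← mul_div_assoc, div_le_div_iff₀ (by positivity) hLU, pow_succ]
      have h5 : 0 ≤ (t : ℝ) * L ^ U := by positivity
      nlinarith
    have e1 : (t : ℝ) * ρ = t / (Nat.totient q : ℝ) := by rw [hρ]; ring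
    rw [e1]
    rw [abs_le] at c1 c2 c3 ⊢
    constructor <;> linarith [c1.1, c1.2, c2.1, c2.2, c3.1, c3.2]

lemma log_le_pow (K : ℕ) (a : ℝ) (ha : 0 < a) (ha1 : a ≤ 1) : ∃ C : ℝ, 0 ≤ C ∧ ∀ t : ℕ, 1 ≤ t →
    Real.log (t + K + 2) ≤ C * (t : ℝ) ^ a := by
  refine ⟨(K + 3) / a, by positivity, fun t ht => ?_⟩
  have h1 : (1 : ℝ) ≤ t := by exact_mod_cast ht
  have hK : (0 : ℝ) ≤ K := Nat.cast_nonneg _
  have h2 := Real.log_le_rpow_div (show (0 : ℝ) ≤ t + K + 2 by positivity) ha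
  refine h2.trans ?_
  rw [div_mul_eq_mul_div]
  apply div_le_div_of_nonneg_right _ ha.le
  have h3 : ((t : ℝ) + K + 2) ^ a ≤ ((K + 3) * t) ^ a := Real.rpow_le_rpow (by positivity) (by nlinarith) ha.le
  refine h3.trans ?_
  rw [Real.mul_rpow (by positivity) (by positivity)]
  apply mul_le_mul_of_nonneg_right _ (by positivity)
  calc ((K : ℝ) + 3) ^ a ≤ (K + 3 : ℝ) ^ (1 : ℝ) := Real.rpow_le_rpow_of_exponent_le (by linarith) ha1
    _ = K + 3 := Real.rpow_one _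

/-- power savings for the shifted primes and for the primes -/
theorem pow_shift (q : ℕ) (r k k' : ℤ) (ρ : ℝ)
    (h : ∃ δ : ℝ, 0 < δ ∧ ∃ C : ℝ, ∀ t : ℕ, 1 ≤ t → |∑ s ∈ Ioc 0 t, (lp q r ((s : ℤ) + k) - ρ)| ≤ C * (t : ℝ) ^ (1 - δ)) :
    ∃ δ : ℝ, 0 < δ ∧ ∃ C : ℝ, ∀ t : ℕ, 1 ≤ t → |∑ s ∈ Ioc 0 t, (lp q r ((s : ℤ) + k') - ρ)| ≤ C * (t : ℝ) ^ (1 - δ) := by
  obtain ⟨δ, hδ, C, h⟩ := h
  obtain ⟨C1, hC1, h1⟩ := log_le_pow k.natAbs (1 / 2) (by norm_num) (by norm_num)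
  obtain ⟨C2, hC2, h2⟩ := log_le_pow k'.natAbs (1 / 2) (by norm_num) (by norm_num)
  refine ⟨min δ (1 / 2), lt_min hδ (by norm_num), |C| + 2 * k.natAbs * C1 + 2 * k'.natAbs * C2, fun t ht => ?_⟩
  have b1 := h t ht
  have b2 := shift (lp q r) (lp_abs q r) k t
  have b3 := shift (lp q r) (lp_abs q r) k' t
  have htr : (1 : ℝ) ≤ t := by exact_mod_cast ht
  have p1 : (t : ℝ) ^ (1 - δ) ≤ (t : ℝ) ^ (1 - min δ (1 / 2)) :=
    Real.rpow_le_rpow_of_exponent_le htr (by linarith [min_le_left δ (1 / 2)])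
  have p2 : (t : ℝ) ^ (1 / 2 : ℝ) ≤ (t : ℝ) ^ (1 - min δ (1 / 2)) :=
    Real.rpow_le_rpow_of_exponent_le htr (by linarith [min_le_right δ (1 / 2)])
  have c1 : C * (t : ℝ) ^ (1 - δ) ≤ |C| * (t : ℝ) ^ (1 - min δ (1 / 2)) :=
    (mul_le_mul_of_nonneg_right (le_abs_self C) (by positivity)).trans (mul_le_mul_of_nonneg_left p1 (abs_nonneg _))
  have c2 : 2 * (k.natAbs : ℝ) * Real.log (t + k.natAbs + 2) ≤ 2 * k.natAbs * C1 * (t : ℝ) ^ (1 - min δ (1 / 2)) := by
    rw [mul_assoc (2 * (k.natAbs : ℝ))]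
    exact mul_le_mul_of_nonneg_left ((h1 t ht).trans (mul_le_mul_of_nonneg_left p2 hC1)) (by positivity)
  have c3 : 2 * (k'.natAbs : ℝ) * Real.log (t + k'.natAbs + 2) ≤ 2 * k'.natAbs * C2 * (t : ℝ) ^ (1 - min δ (1 / 2)) := by
    rw [mul_assoc (2 * (k'.natAbs : ℝ))]
    exact mul_le_mul_of_nonneg_left ((h2 t ht).trans (mul_le_mul_of_nonneg_left p2 hC2)) (by positivity)
  rw [Finset.sum_sub_distrib] at b1 ⊢
  rw [abs_le] at b1 b2 b3 ⊢
  constructor <;> linarith [b1.1, b1.2, b2.1, b2.2, b3.1, b3.2]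

/-- slow growth -/
theorem lp_grow (q : ℕ) (r k : ℤ) (κ : ℝ) (hκ : 0 < κ) : ∃ C : ℝ, 0 < C ∧ ∀ m : ℕ, 1 ≤ m →
    |lp q r ((m : ℤ) + k)| ≤ C * (m : ℝ) ^ κ := by
  obtain ⟨C, hC, h⟩ := log_le_pow k.natAbs (min κ 1) (lt_min hκ one_pos) (min_le_right _ _)
  refine ⟨C + 1, by positivity, fun m hm => ?_⟩
  have hmr : (1 : ℝ) ≤ m := by exact_mod_cast hm
  refine (lp_abs q r _).trans ?_
  have h1 : (((m : ℤ) + k).natAbs : ℝ) ≤ m + k.natAbs := by
    have : ((m : ℤ) + k).natAbs ≤ m + k.natAbs := by omega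
    exact_mod_cast this
  have h2 : Real.log ((((m : ℤ) + k).natAbs : ℝ) + 1) ≤ Real.log (m + k.natAbs + 2) :=
    Real.log_le_log (by positivity) (by linarith)
  refine h2.trans ((h m hm).trans ?_)
  have h3 : (m : ℝ) ^ (min κ 1) ≤ (m : ℝ) ^ κ := Real.rpow_le_rpow_of_exponent_le hmr (min_le_left _ _)
  have h4 : 0 ≤ (m : ℝ) ^ κ := by positivity
  have h5 := mul_le_mul_of_nonneg_left h3 hC
  linarith

end Pool.Agent.U909.PW
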