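import Pool.Agent.U909.PW.Seq

/-!
# From sums with logarithmic weights to counting functions
-/

set_option autoImplicit false

open Finset Filter Topology

namespace Pool.Agent.U909.PW

open Pool.Agent.Y854.PS (ms xs xs_nonneg)

/-- removing the logarithmic weight -/
theorem count_lim {c ρ : ℝ} (hc : 0 < c) (P : ℕ → Prop) [DecidablePred P] (m : ℕ → ℝ)
    (hm : ∀ ε : ℝ, 0 < ε → ∀ᶠ n : ℕ in atTop, (c - ε) * Real.log n ≤ Real.log (m n) ∧
      Real.log (m n) ≤ (c + ε) * Real.log n)
    (hT : Tendsto (fun N : ℕ => (∑ n ∈ Icc 1 N, if P n then Real.log (m n) else 0) / N) atTop (𝓝 ρ)) :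
    Tendsto (fun N : ℕ => (((Icc 1 N).filter P).card : ℝ) * Real.log N / N) atTop (𝓝 (ρ / c)) := by
  classical
  have hlog : Tendsto (fun N : ℕ => Real.log N) atTop atTop := Real.tendsto_log_atTop.comp tendsto_natCast_atTop_atTop
  set T : ℕ → ℝ := fun N => ∑ n ∈ Icc 1 N, if P n then Real.log (m n) else 0 with hTdef
  have hN : Tendsto (fun N : ℕ => (N : ℝ)) atTop atTop := tendsto_natCast_atTop_atTop
  refine tendsto_order.2 ⟨fun a ha => ?_, fun b hb => ?_⟩
  · -- lower bound
    rw [lt_div_iff₀ hc] at ha
    have h1 : Tendsto (fun ε : ℝ => a * (c + ε)) (𝓝[>] 0) (𝓝 (a * (c + 0))) :=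
      ((continuous_const.mul (continuous_const.add continuous_id)).tendsto 0).mono_left nhdsWithin_le_nhds
    rw [add_zero] at h1
    obtain ⟨ε, hε1, hε0⟩ := ((h1.eventually (gt_mem_nhds ha)).and self_mem_nhdsWithin).exists
    have hε0 : 0 < ε := hε0
    obtain ⟨n1, hn1⟩ := ((hm ε hε0).and (eventually_ge_atTop 2)).exists_forall_of_atTop
    set B : ℝ := ∑ n ∈ Icc 1 n1, |Real.log (m n)| with hB
    have hB0 : 0 ≤ B := Finset.sum_nonneg fun _ _ => abs_nonneg _
    have hlim : Tendsto (fun N : ℕ => T N / N - B / N) atTop (𝓝 (ρ - 0)) :=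
      hT.sub (tendsto_const_nhds.div_atTop hN)
    rw [sub_zero] at hlim
    filter_upwards [hlim.eventually (lt_mem_nhds hε1), eventually_ge_atTop (max n1 2)] with N h2 h3
    have hNn1 : n1 ≤ N := (le_max_left _ _).trans h3
    have hN2 : 2 ≤ N := (le_max_right _ _).trans h3
    have hN0 : (0 : ℝ) < N := by exact_mod_cast (by omega : 0 < N)
    have hL0 : 0 ≤ Real.log N := Real.log_natCast_nonneg _
    have h4 : T N ≤ B + (c + ε) * Real.log N * (((Icc 1 N).filter P).card : ℝ) := by
      have h5 : ∀ n ∈ Icc 1 N, (if P n then Real.log (m n) else 0) ≤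
          (if n ≤ n1 then |Real.log (m n)| else 0) + (if P n then (c + ε) * Real.log N else 0) := by
        intro n hn
        rw [mem_Icc] at hn
        have h0 : 0 ≤ (c + ε) * Real.log N := by positivity
        by_cases hp : P n
        · simp only [if_pos hp]
          by_cases hnn : n ≤ n1
          · simp only [if_pos hnn]
            have := le_abs_self (Real.log (m n))
            linarith
          · simp only [if_neg hnn]
            have h6 := (hn1 n (by omega)).1.2
            have h7 : Real.log n ≤ Real.log N := Real.log_le_log (by exact_mod_cast (by omega : 0 < n)) (by exact_mod_cast hn.2)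
            have h8 := mul_le_mul_of_nonneg_left h7 (show 0 ≤ c + ε by linarith)
            linarith
        · simp only [if_neg hp]
          split_ifs
          · have := abs_nonneg (Real.log (m n))
            linarith
          · linarith
      refine (Finset.sum_le_sum h5).trans ?_
      rw [Finset.sum_add_distrib, ← Finset.sum_filter, ← Finset.sum_filter, Finset.sum_const, nsmul_eq_mul]
      have h6 : ∑ n ∈ (Icc 1 N).filter (fun n => n ≤ n1), |Real.log (m n)| ≤ B := by
        apply Finset.sum_le_sum_of_subset_of_nonneg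
        · intro n hn
          rw [mem_filter, mem_Icc] at hn
          rw [mem_Icc]
          exact ⟨hn.1.1, hn.2⟩
        · intro _ _ _
          exact abs_nonneg _
      have : (((Icc 1 N).filter P).card : ℝ) * ((c + ε) * Real.log N) =
          (c + ε) * Real.log N * (((Icc 1 N).filter P).card : ℝ) := by ring
      linarith
    have h5 : a * (c + ε) < (c + ε) * ((((Icc 1 N).filter P).card : ℝ) * Real.log N / N) := by
      refine lt_of_lt_of_le h2 ?_
      rw [← sub_div, ← mul_div_assoc]
      apply div_le_div_of_nonneg_right _ hN0.le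
      have : (c + ε) * ((((Icc 1 N).filter P).card : ℝ) * Real.log N) =
          (c + ε) * Real.log N * (((Icc 1 N).filter P).card : ℝ) := by ring
      linarith
    have h6 : 0 < c + ε := by linarith
    rw [mul_comm a] at h5
    exact lt_of_mul_lt_mul_left h5 h6.le
  · -- upper bound
    have hb : ρ / c < b := hb
    rw [div_lt_iff₀ hc] at hb
    have h1 : Tendsto (fun ε : ℝ => b * ((c - ε) * (1 - ε))) (𝓝[>] 0) (𝓝 (b * ((c - 0) * (1 - 0)))) :=
      ((continuous_const.mul ((continuous_const.sub continuous_id).mul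
        (continuous_const.sub continuous_id))).tendsto 0).mono_left nhdsWithin_le_nhds
    rw [sub_zero, sub_zero, mul_one] at h1
    have hmem : Set.Ioo (0 : ℝ) (min (1 / 2) (c / 2)) ∈ 𝓝[>] (0 : ℝ) := Ioo_mem_nhdsGT (by positivity)
    obtain ⟨ε, hε1, hε0⟩ := ((h1.eventually (lt_mem_nhds hb)).and hmem).exists
    obtain ⟨hε0, hε2⟩ := hε0
    have hεh : ε < 1 / 2 := lt_of_lt_of_le hε2 (min_le_left _ _)
    have hεc : ε < c / 2 := lt_of_lt_of_le hε2 (min_le_right _ _)
    obtain ⟨n1, hn1⟩ := ((hm ε hε0).and (eventually_ge_atTop 2)).exists_forall_of_atTop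
    set B : ℝ := ∑ n ∈ Icc 1 n1, |Real.log (m n)| with hB
    have hB0 : 0 ≤ B := Finset.sum_nonneg fun _ _ => abs_nonneg _
    set D : ℝ := (c - ε) * (1 - ε) with hD
    have hD0 : 0 < D := mul_pos (by linarith) (by linarith)
    -- the small terms
    have hs : Tendsto (fun N : ℕ => Real.log N / (N : ℝ) ^ ε) atTop (𝓝 0) := by
      have := (isLittleO_log_rpow_atTop hε0).tendsto_div_nhds_zero
      exact this.comp tendsto_natCast_atTop_atTop
    have hlim : Tendsto (fun N : ℕ => D * (b - Real.log N / (N : ℝ) ^ ε) - (T N / N + B / N)) atTop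
        (𝓝 (D * (b - 0) - (ρ + 0))) :=
      ((tendsto_const_nhds.sub hs).const_mul D).sub (hT.add (tendsto_const_nhds.div_atTop hN))
    rw [sub_zero, add_zero] at hlim
    have hpos : 0 < D * b - ρ := by
      have : b * D = D * b := mul_comm _ _
      linarith
    have hpw : Tendsto (fun N : ℕ => (N : ℝ) ^ (1 - ε)) atTop atTop :=
      (tendsto_rpow_atTop (by linarith)).comp tendsto_natCast_atTop_atTop
    filter_upwards [hlim.eventually (lt_mem_nhds hpos), hpw.eventually (eventually_ge_atTop ((n1 : ℝ))),
      eventually_ge_atTop (max n1 2)] with N h2 h3' h3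
    have hNn1 : n1 ≤ N := (le_max_left _ _).trans h3
    have hN2 : 2 ≤ N := (le_max_right _ _).trans h3
    have hN0 : (0 : ℝ) < N := by exact_mod_cast (by omega : 0 < N)
    have hL0 : 0 ≤ Real.log N := Real.log_natCast_nonneg _
    set Z : ℕ := ⌊(N : ℝ) ^ (1 - ε)⌋₊ with hZ
    have hZle : (Z : ℝ) ≤ (N : ℝ) ^ (1 - ε) := Nat.floor_le (by positivity)
    have hn1Z : n1 ≤ Z := Nat.le_floor h3'
    have h4 : D * Real.log N * ((((Icc 1 N).filter P).card : ℝ) - Z) ≤ T N + B := by
      have h5 : ∀ n ∈ Icc 1 N, (if P n then D * Real.log N else 0) - (if n ≤ Z then D * Real.log N else 0) ≤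
          (if P n then Real.log (m n) else 0) + (if n ≤ n1 then |Real.log (m n)| else 0) := by
        intro n hn
        rw [mem_Icc] at hn
        have h0 : 0 ≤ D * Real.log N := by positivity
        have habs := abs_nonneg (Real.log (m n))
        have habs2 := neg_abs_le (Real.log (m n))
        by_cases hnZ : n ≤ Z
        · simp only [if_pos hnZ]
          by_cases hp : P n
          · simp only [if_pos hp]
            by_cases hnn : n ≤ n1
            · simp only [if_pos hnn]
              linarith
            · simp only [if_neg hnn]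
              have h6 := (hn1 n (by omega)).1.1
              have h7 : 0 ≤ (c - ε) * Real.log n := mul_nonneg (by linarith) (Real.log_natCast_nonneg _)
              linarith
          · simp only [if_neg hp]
            split_ifs
            · linarith
            · linarith
        · simp only [if_neg hnZ]
          have hnn : ¬ n ≤ n1 := by omega
          simp only [if_neg hnn]
          by_cases hp : P n
          · simp only [if_pos hp]
            have h6 := (hn1 n (by omega)).1.1
            have h7 : (N : ℝ) ^ (1 - ε) ≤ n := by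
              push Not at hnZ
              exact ((Nat.floor_lt (by positivity)).mp hnZ).le
            have h8 := Real.log_le_log (by positivity) h7
            rw [Real.log_rpow hN0] at h8
            have h9 := mul_le_mul_of_nonneg_left h8 (show 0 ≤ c - ε by linarith)
            rw [hD]
            linarith
          · simp only [if_neg hp]
            linarith
      have h6 := Finset.sum_le_sum h5
      rw [Finset.sum_sub_distrib, Finset.sum_add_distrib, ← Finset.sum_filter, ← Finset.sum_filter, Finset.sum_const,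
        nsmul_eq_mul, Finset.sum_const, nsmul_eq_mul] at h6
      have h7 : ∑ n ∈ Icc 1 N, (if n ≤ n1 then |Real.log (m n)| else 0) ≤ B := by
        rw [← Finset.sum_filter]
        apply Finset.sum_le_sum_of_subset_of_nonneg
        · intro n hn
          rw [mem_filter, mem_Icc] at hn
          rw [mem_Icc]
          exact ⟨hn.1.1, hn.2⟩
        · intro _ _ _
          exact abs_nonneg _
      have h8 : (((Icc 1 N).filter (fun n => n ≤ Z)).card : ℝ) ≤ Z := by
        have h9 : (Icc 1 N).filter (fun n => n ≤ Z) ⊆ Icc 1 Z := by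
          intro n hn
          rw [mem_filter, mem_Icc] at hn
          rw [mem_Icc]
          exact ⟨hn.1.1, hn.2⟩
        have := Finset.card_le_card h9
        rw [Nat.card_Icc, Nat.add_sub_cancel] at this
        exact_mod_cast this
      have h9 := mul_le_mul_of_nonneg_right h8 (show 0 ≤ D * Real.log N by positivity)
      have h10 : D * Real.log N * ((((Icc 1 N).filter P).card : ℝ) - Z) =
        (((Icc 1 N).filter P).card : ℝ) * (D * Real.log N) - Z * (D * Real.log N) := by ring
      rw [h10]
      change _ ≤ (∑ n ∈ Icc 1 N, if P n then Real.log (m n) else 0) + B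
      linarith
    -- conclusion
    have h5 : D * ((((Icc 1 N).filter P).card : ℝ) * Real.log N / N) < D * b := by
      have h6 : D * Real.log N * Z / N ≤ D * (Real.log N / (N : ℝ) ^ ε) := by
        have h7 : (N : ℝ) ^ (1 - ε) / N = 1 / (N : ℝ) ^ ε := by
          rw [Real.rpow_sub hN0, Real.rpow_one]
          field_simp
        have h8 : (Z : ℝ) / N ≤ 1 / (N : ℝ) ^ ε := by
          rw [← h7]
          exact div_le_div_of_nonneg_right hZle hN0.le
        have h9 := mul_le_mul_of_nonneg_left h8 (show 0 ≤ D * Real.log N by positivity)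
        calc D * Real.log N * Z / N = D * Real.log N * (Z / N) := by ring
          _ ≤ _ := h9
          _ = _ := by ring
      have h7 : D * Real.log N * ((((Icc 1 N).filter P).card : ℝ) - Z) / N ≤ (T N + B) / N :=
        div_le_div_of_nonneg_right h4 hN0.le
      have h8 : D * Real.log N * ((((Icc 1 N).filter P).card : ℝ) - Z) / N =
          D * ((((Icc 1 N).filter P).card : ℝ) * Real.log N / N) - D * Real.log N * Z / N := by ring
      rw [h8, add_div] at h7
      have h9 : D * (b - Real.log N / (N : ℝ) ^ ε) = D * b - D * (Real.log N / (N : ℝ) ^ ε) := by ring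
      rw [h9] at h2
      linarith
    exact lt_of_mul_lt_mul_left h5 hD0.le

/-- the logarithms of the terms of the sequence -/
theorem log_ms {α c : ℝ} (hα : 0 < α) (hc : 1 < c) (k : ℤ) (ε : ℝ) (hε : 0 < ε) : ∀ᶠ n : ℕ in atTop,
    (c - ε) * Real.log n ≤ Real.log (((ms α c n : ℕ) : ℤ) + k : ℤ) ∧
      Real.log (((ms α c n : ℕ) : ℤ) + k : ℤ) ≤ (c + ε) * Real.log n := by
  have hc0 : 0 < c := by linarith
  have h1 : Tendsto (fun N : ℕ => (N : ℝ) ^ ε) atTop atTop :=
    (tendsto_rpow_atTop hε).comp tendsto_natCast_atTop_atTop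
  have h2 : Tendsto (fun N : ℕ => (N : ℝ) ^ c) atTop atTop :=
    (tendsto_rpow_atTop hc0).comp tendsto_natCast_atTop_atTop
  filter_upwards [h1.eventually (eventually_ge_atTop (2 / α)), h1.eventually (eventually_ge_atTop (α + 1)),
    h2.eventually (eventually_ge_atTop (2 * (1 + |(k : ℝ)|) / α)), h2.eventually (eventually_ge_atTop |(k : ℝ)|),
    eventually_ge_atTop 2] with n b1 b2 b3 b4 b5
  have hn0 : (0 : ℝ) < n := by exact_mod_cast (by omega : 0 < n)
  rw [div_le_iff₀ hα] at b1 b3
  have hk := le_abs_self (k : ℝ)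
  have hk2 := neg_abs_le (k : ℝ)
  have m1 : ((ms α c n : ℕ) : ℝ) ≤ α * (n : ℝ) ^ c := Nat.floor_le (xs_nonneg hα n)
  have m2 : α * (n : ℝ) ^ c < ((ms α c n : ℕ) : ℝ) + 1 := Nat.lt_floor_add_one _
  push_cast
  have e1 : (n : ℝ) ^ c = (n : ℝ) ^ ε * (n : ℝ) ^ (c - ε) := by
    rw [← Real.rpow_add hn0]
    congr 1
    ring
  have e2 : (n : ℝ) ^ (c + ε) = (n : ℝ) ^ c * (n : ℝ) ^ ε := by
    rw [← Real.rpow_add hn0]
  have p1 : (0 : ℝ) < (n : ℝ) ^ (c - ε) := by positivity
  have p2 : (0 : ℝ) < (n : ℝ) ^ c := by positivity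
  have l1 : (n : ℝ) ^ (c - ε) ≤ ((ms α c n : ℕ) : ℝ) + k := by
    have h3 : 2 * (n : ℝ) ^ (c - ε) ≤ α * (n : ℝ) ^ c := by
      rw [e1]
      nlinarith
    linarith
  have l2 : ((ms α c n : ℕ) : ℝ) + k ≤ (n : ℝ) ^ (c + ε) := by
    rw [e2]
    nlinarith
  constructor
  · have h3 := Real.log_le_log p1 l1
    rwa [Real.log_rpow hn0] at h3
  · have h3 := Real.log_le_log (lt_of_lt_of_le p1 l1) l2
    rwa [Real.log_rpow hn0] at h3

end Pool.Agent.U909.PW
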