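import Pool.Agent.U909.PW.Count
import Pool.Agent.U909.PW.Pnt

/-!
# Primes `⌊α n ^ c⌋ + k` in arithmetic progressions, given the mean value law
-/

set_option autoImplicit false

open Finset Filter Topology

namespace Pool.Agent.U909.PW

open Pool.Agent.Y854.PS (ms xs xs_nonneg)

/-- the integer `⌊α n ^ c⌋ + k` -/
noncomputable def val (α c : ℝ) (k : ℤ) (n : ℕ) : ℤ := ⌊α * (n : ℝ) ^ c⌋ + k

/-- the number of the `1 ≤ n ≤ N` for which `⌊α n ^ c⌋ + k` is a prime congruent to `r` modulo `q` -/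
noncomputable def cnt (α c : ℝ) (k : ℤ) (q : ℕ) (r : ℤ) (N : ℕ) : ℕ :=
  ((Icc 1 N).filter fun n => (val α c k n).toNat.Prime ∧ val α c k n ≡ r [ZMOD q]).card

/-- the sum of `log (⌊α n ^ c⌋ + k)` over these `n` -/
noncomputable def tht (α c : ℝ) (k : ℤ) (q : ℕ) (r : ℤ) (N : ℕ) : ℝ :=
  ∑ n ∈ (Icc 1 N).filter (fun n => (val α c k n).toNat.Prime ∧ val α c k n ≡ r [ZMOD q]), Real.log (val α c k n)

/-- the sum of `log p` over the primes `p ≤ N` congruent to `r` modulo `q` -/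
noncomputable def th (q : ℕ) (r : ℤ) (N : ℕ) : ℝ :=
  ∑ p ∈ (Icc 1 N).filter (fun p : ℕ => p.Prime ∧ (p : ℤ) ≡ r [ZMOD q]), Real.log p

lemma val_eq {α c : ℝ} (hα : 0 < α) (k : ℤ) (n : ℕ) : val α c k n = ((ms α c n : ℕ) : ℤ) + k := by
  have h := xs_nonneg (c := c) hα n
  unfold val ms
  rw [Int.natCast_floor_eq_floor h]
  rfl

lemma tht_eq {α c : ℝ} (hα : 0 < α) (k : ℤ) (q : ℕ) (r : ℤ) (N : ℕ) :
    tht α c k q r N = ∑ n ∈ Icc 1 N, lp q r (((ms α c n : ℕ) : ℤ) + k) := by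
  unfold tht
  rw [Finset.sum_filter]
  apply Finset.sum_congr rfl
  intro n _
  simp only [val_eq hα]
  rfl

lemma th_eq (q : ℕ) (r : ℤ) (N : ℕ) : th q r N = ∑ t ∈ Ioc 0 N, lp q r t := by
  unfold th
  rw [Pool.Agent.Y854.ST.Ioc_zero, Finset.sum_filter]
  apply Finset.sum_congr rfl
  intro n _
  unfold lp
  rw [Int.toNat_natCast, Int.cast_natCast]

/-- from bounds for large `N` to bounds for all `N` -/
lemma ev_all (F : ℕ → ℝ) (h : ∃ δ : ℝ, 0 < δ ∧ ∃ N0 : ℕ, ∀ N : ℕ, N0 ≤ N → |F N| ≤ (N : ℝ) ^ (1 - δ)) :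
    ∃ δ : ℝ, 0 < δ ∧ ∃ C : ℝ, ∀ t : ℕ, 1 ≤ t → |F t| ≤ C * (t : ℝ) ^ (1 - δ) := by
  obtain ⟨δ, hδ, N0, h⟩ := h
  refine ⟨min δ 1, lt_min hδ one_pos, 1 + ∑ n ∈ range N0, |F n|, fun t ht => ?_⟩
  have htr : (1 : ℝ) ≤ t := by exact_mod_cast ht
  have hs : 0 ≤ ∑ n ∈ range N0, |F n| := Finset.sum_nonneg fun _ _ => abs_nonneg _
  have h1 : (1 : ℝ) ≤ (t : ℝ) ^ (1 - min δ 1) := Real.one_le_rpow htr (by linarith [min_le_right δ 1])
  by_cases hN : N0 ≤ t
  · have h2 := h t hN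
    have h3 : (t : ℝ) ^ (1 - δ) ≤ (t : ℝ) ^ (1 - min δ 1) :=
      Real.rpow_le_rpow_of_exponent_le htr (by linarith [min_le_left δ 1])
    nlinarith
  · push Not at hN
    have h2 : |F t| ≤ ∑ n ∈ range N0, |F n| :=
      Finset.single_le_sum (f := fun n => |F n|) (fun _ _ => abs_nonneg _) (mem_range.mpr hN)
    nlinarith

lemma all_ev (F : ℕ → ℝ) (h : ∃ δ : ℝ, 0 < δ ∧ ∃ C : ℝ, ∀ t : ℕ, 1 ≤ t → |F t| ≤ C * (t : ℝ) ^ (1 - δ)) :
    ∃ δ : ℝ, 0 < δ ∧ ∃ N0 : ℕ, ∀ N : ℕ, N0 ≤ N → |F N| ≤ (N : ℝ) ^ (1 - δ) := by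
  obtain ⟨δ, hδ, C, h⟩ := h
  have h1 : Tendsto (fun N : ℕ => (N : ℝ) ^ (δ / 2)) atTop atTop :=
    (tendsto_rpow_atTop (by positivity)).comp tendsto_natCast_atTop_atTop
  obtain ⟨N0, hN0⟩ := ((h1.eventually (eventually_ge_atTop C)).and (eventually_ge_atTop 1)).exists_forall_of_atTop
  refine ⟨δ / 2, by positivity, N0, fun N hN => ?_⟩
  obtain ⟨h2, h3⟩ := hN0 N hN
  have hNp : (0 : ℝ) < N := by exact_mod_cast (by omega : 0 < N)
  have e : (N : ℝ) ^ (1 - δ / 2) = (N : ℝ) ^ (δ / 2) * (N : ℝ) ^ (1 - δ) := by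
    rw [← Real.rpow_add hNp]
    congr 1
    ring
  rw [e]
  exact (h N h3).trans (mul_le_mul_of_nonneg_right h2 (by positivity))

/-- **Primes along the sequence, given the mean value law.** -/
theorem main {α c : ℝ} (hα : 0 < α) (hc : 1 < c) (k : ℤ) (q : ℕ) (r : ℤ) (hq : 1 ≤ q) (hr : IsCoprime r (q : ℤ))
    (hL : Law α c (fun t : ℕ => lp q r ((t : ℤ) + k))) :
    Tendsto (fun N : ℕ => (cnt α c k q r N : ℝ) * Real.log N / N) atTop (𝓝 (1 / (c * Nat.totient q))) ∧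
    (∀ A : ℕ, ∃ N0 : ℕ, ∀ N : ℕ, N0 ≤ N → |tht α c k q r N - N / Nat.totient q| ≤ N / Real.log N ^ A) ∧
    ((∃ δ : ℝ, 0 < δ ∧ ∃ N0 : ℕ, ∀ N : ℕ, N0 ≤ N → |tht α c k q r N - N / Nat.totient q| ≤ (N : ℝ) ^ (1 - δ)) ↔
      ∃ δ : ℝ, 0 < δ ∧ ∃ N0 : ℕ, ∀ N : ℕ, N0 ≤ N → |th q r N - N / Nat.totient q| ≤ (N : ℝ) ^ (1 - δ)) := by
  have hc0 : 0 < c := by linarith
  set ρ : ℝ := 1 / (Nat.totient q : ℝ) with hρ
  have hρ0 : 0 ≤ ρ := by positivity
  have hdiv : ∀ N : ℕ, (N : ℝ) / Nat.totient q = ρ * N := fun N => by rw [hρ]; ring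
  have hlogN := seq_log hα hc _ hL (sw_lp q hq r hr k)
  have part2 : ∀ A : ℕ, ∃ N0 : ℕ, ∀ N : ℕ, N0 ≤ N → |tht α c k q r N - N / Nat.totient q| ≤ N / Real.log N ^ A := by
    intro A
    obtain ⟨N0, h⟩ := hlogN A
    refine ⟨N0, fun N hN => ?_⟩
    rw [tht_eq hα, hdiv]
    exact h N hN
  refine ⟨?_, part2, ?_⟩
  · -- the counting function
    have hT : Tendsto (fun N : ℕ => (∑ n ∈ Icc 1 N, if (val α c k n).toNat.Prime ∧ val α c k n ≡ r [ZMOD q] then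
        Real.log (val α c k n) else 0) / N) atTop (𝓝 ρ) := by
      obtain ⟨N0, h⟩ := part2 1
      have hlog : Tendsto (fun N : ℕ => Real.log N) atTop atTop :=
        Real.tendsto_log_atTop.comp tendsto_natCast_atTop_atTop
      have h0 : Tendsto (fun N : ℕ => 1 / Real.log N) atTop (𝓝 0) := tendsto_const_nhds.div_atTop hlog
      rw [tendsto_iff_norm_sub_tendsto_zero]
      refine squeeze_zero' (Eventually.of_forall fun _ => norm_nonneg _) ?_ h0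
      filter_upwards [eventually_ge_atTop (max N0 1)] with N hN
      have h1 := h N ((le_max_left _ _).trans hN)
      have hNp : (0 : ℝ) < N := by exact_mod_cast (le_max_right _ _).trans hN
      rw [Real.norm_eq_abs, ← Finset.sum_filter]
      change |tht α c k q r N / N - ρ| ≤ _
      have e : tht α c k q r N / N - ρ = (tht α c k q r N - N / Nat.totient q) / N := by
        rw [hdiv, sub_div, mul_div_cancel_right₀ _ hNp.ne']
      rw [e, abs_div, abs_of_pos hNp, div_le_iff₀ hNp, one_div_mul_eq_div]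
      rw [pow_one] at h1
      exact h1
    have hmain := count_lim hc0 (fun n => (val α c k n).toNat.Prime ∧ val α c k n ≡ r [ZMOD q])
      (fun n => ((val α c k n : ℤ) : ℝ)) (fun ε hε => by
        filter_upwards [log_ms hα hc k ε hε] with n hn
        rw [val_eq hα]
        exact hn) hT
    have e : ρ / c = 1 / (c * Nat.totient q) := by
      rw [hρ, div_div, mul_comm]
    rw [e] at hmain
    exact hmain
  · -- power savings
    have e1 : ∀ t : ℕ, ∑ s ∈ Ioc 0 t, (lp q r ((s : ℤ) + 0) - ρ) = th q r t - t / Nat.totient q := by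
      intro t
      rw [Finset.sum_sub_distrib, Finset.sum_const, Nat.card_Ioc, Nat.sub_zero, nsmul_eq_mul, th_eq, hdiv, mul_comm]
      simp only [add_zero]
    constructor
    · rintro ⟨δ, hδ, N0, h⟩
      have h1 := seq_pow_rev (ρ := ρ) hα hc hρ0 _ (fun t => lp_nonneg _ _ _) hL ⟨δ, hδ, N0, fun N hN => by
        have := h N hN
        rwa [tht_eq hα, hdiv] at this⟩
      have h2 := pow_shift q r k 0 ρ h1
      refine all_ev _ ?_
      obtain ⟨δ', hδ', C, h3⟩ := h2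
      refine ⟨δ', hδ', C, fun t ht => ?_⟩
      have := h3 t ht
      rwa [e1] at this
    · intro h
      have h1 := ev_all _ h
      obtain ⟨δ', hδ', C, h3⟩ := h1
      have h2 := pow_shift q r 0 k ρ ⟨δ', hδ', C, fun t ht => by
        rw [e1]
        exact h3 t ht⟩
      obtain ⟨δ, hδ, N0, h4⟩ := seq_pow hα hc _ hL h2
      refine ⟨δ, hδ, N0, fun N hN => ?_⟩
      rw [tht_eq hα, hdiv]
      exact h4 N hN

end Pool.Agent.U909.PW
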