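import Pool.Agent.Y854.GM.Mean2
import Pool.Agent.U909.PW.Wt

/-!
# From the partial sums of a function to its sums along the sequence `⌊α n ^ c⌋`, and back
-/

set_option autoImplicit false

open Finset Filter Topology

namespace Pool.Agent.U909.PW

open Pool.Agent.Y854.PS (wt wt_nonneg wt_anti ms xs xs_nonneg ms_mono xs_mono)
open Pool.Agent.Y854.ST (sum_wt_up sum_wt_low wsum)

/-- the mean value law for `g` along the sequence -/
def Law (α c : ℝ) (g : ℕ → ℝ) : Prop := ∃ κ : ℝ, 0 < κ ∧ κ < 1 ∧ ∃ N0 : ℕ, ∀ N : ℕ, N0 ≤ N →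
  |∑ n ∈ Icc 1 N, g (ms α c n) - α ^ (-(1 / c)) * ∑ t ∈ Ioc 0 (ms α c N), wt c t * g t| ≤ (N : ℝ) ^ (1 - κ)

lemma ms_le {α c : ℝ} (hα : 0 < α) (hc : 1 < c) (N : ℕ) :
    α ^ (-(1 / c)) * ((ms α c N : ℕ) : ℝ) ^ (1 / c) ≤ N := by
  have hc0 : 0 < c := by linarith
  have h1 : ((ms α c N : ℕ) : ℝ) ^ (1 / c) ≤ (xs α c N) ^ (1 / c) :=
    Real.rpow_le_rpow (Nat.cast_nonneg _) (Nat.floor_le (xs_nonneg hα N)) (by positivity)
  have e : α ^ (-(1 / c)) * (xs α c N) ^ (1 / c) = N := by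
    unfold xs
    rw [Real.mul_rpow hα.le (by positivity), ← Real.rpow_mul (Nat.cast_nonneg N),
      mul_one_div_cancel hc0.ne', Real.rpow_one, ← mul_assoc, ← Real.rpow_add hα]
    simp
  have h2 := mul_le_mul_of_nonneg_left h1 (show 0 ≤ α ^ (-(1 / c)) by positivity)
  linarith

lemma ms_ge {α c : ℝ} (hα : 0 < α) (hc : 1 < c) : ∀ᶠ N : ℕ in atTop, N ≤ ms α c N := by
  have h1 : Tendsto (fun N : ℕ => (N : ℝ) ^ (c - 1)) atTop atTop :=
    (tendsto_rpow_atTop (by linarith)).comp tendsto_natCast_atTop_atTop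
  filter_upwards [h1.eventually (eventually_ge_atTop (1 / α)), eventually_ge_atTop 1] with N hN hN1
  apply Nat.le_floor
  unfold xs
  have hN0 : (0 : ℝ) < N := by exact_mod_cast (by omega : 0 < N)
  rw [div_le_iff₀ hα] at hN
  have e : (N : ℝ) ^ c = (N : ℝ) ^ (c - 1) * N := by
    nth_rw 3 [← Real.rpow_one (N : ℝ)]
    rw [← Real.rpow_add hN0]
    congr 1
    ring
  rw [e]
  have := mul_le_mul_of_nonneg_right hN hN0.le
  linarith

lemma sum_sub_const (c ρ : ℝ) (g : ℕ → ℝ) (Y : ℕ) : ∑ t ∈ Ioc 0 Y, wt c t * (g t - ρ) =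
    ∑ t ∈ Ioc 0 Y, wt c t * g t - ρ * ∑ t ∈ Ioc 0 Y, wt c t := by
  rw [Finset.mul_sum, ← Finset.sum_sub_distrib]
  exact Finset.sum_congr rfl fun t _ => by ring

/-- **Logarithmic savings along the sequence.** -/
theorem seq_log {α c ρ : ℝ} (hα : 0 < α) (hc : 1 < c) (g : ℕ → ℝ) (hL : Law α c g)
    (hu : SW (fun t => g t - ρ)) (U : ℕ) : ∃ N0 : ℕ, ∀ N : ℕ, N0 ≤ N →
      |∑ n ∈ Icc 1 N, g (ms α c n) - ρ * N| ≤ N / Real.log N ^ U := by
  have hc0 : 0 < c := by linarith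
  obtain ⟨κ, hκ, hκ1, N1, h1⟩ := hL
  obtain ⟨Y0, h2⟩ := wt_log hc _ hu (U + 1)
  set a := α ^ (-(1 / c)) with ha
  have ha0 : 0 < a := Real.rpow_pos_of_pos hα _
  have hlog : Tendsto (fun N : ℕ => Real.log N) atTop atTop := Real.tendsto_log_atTop.comp tendsto_natCast_atTop_atTop
  obtain ⟨N2, h3⟩ := ((((ms_ge hα hc).and (log_pow_le hκ U 3)).and
    (log_pow_le one_pos U (3 * |ρ| * a))).and (hlog.eventually (eventually_ge_atTop 3))).exists_forall_of_atTop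
  refine ⟨max (max N1 N2) (max Y0 1), fun N hN => ?_⟩
  have hN1 : N1 ≤ N := ((le_max_left _ _).trans (le_max_left _ _)).trans hN
  have hN2 : N2 ≤ N := ((le_max_right _ _).trans (le_max_left _ _)).trans hN
  have hNY : Y0 ≤ N := ((le_max_left _ _).trans (le_max_right _ _)).trans hN
  have hN3 : 1 ≤ N := ((le_max_right _ _).trans (le_max_right _ _)).trans hN
  obtain ⟨⟨⟨b1, b2⟩, b3⟩, b4⟩ := h3 N hN2
  have hN0 : (0 : ℝ) < N := by exact_mod_cast (by omega : 0 < N)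
  set L := Real.log N with hLd
  have hL0 : 0 < L := by linarith
  have c1 := h1 N hN1
  have c2 := h2 (ms α c N) (hNY.trans b1)
  rw [sum_sub_const] at c2
  have c3 := wsum hα hc N
  rw [← ha] at c3
  have c4 : a * ((ms α c N : ℕ) : ℝ) ^ (1 / c) ≤ N := ms_le hα hc N
  have hmsL : L ≤ Real.log (ms α c N : ℕ) := Real.log_le_log hN0 (by exact_mod_cast b1)
  set S := ∑ t ∈ Ioc 0 (ms α c N), wt c t * g t with hS
  set W := ∑ t ∈ Ioc 0 (ms α c N), wt c t with hW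
  have d1 : |a * (S - ρ * W)| ≤ N / L ^ (U + 1) := by
    rw [abs_mul, abs_of_pos ha0]
    refine (mul_le_mul_of_nonneg_left c2 ha0.le).trans ?_
    rw [← mul_div_assoc]
    have h4 : (0 : ℝ) < L ^ (U + 1) := by positivity
    have h5 : L ^ (U + 1) ≤ Real.log (ms α c N : ℕ) ^ (U + 1) := pow_le_pow_left₀ hL0.le hmsL _
    calc a * ((ms α c N : ℕ) : ℝ) ^ (1 / c) / Real.log (ms α c N : ℕ) ^ (U + 1) ≤
        N / Real.log (ms α c N : ℕ) ^ (U + 1) := div_le_div_of_nonneg_right c4 (by positivity)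
      _ ≤ N / L ^ (U + 1) := div_le_div_of_nonneg_left hN0.le h4 h5
  have d2 : |ρ * (a * W - N)| ≤ |ρ| * a := by
    rw [abs_mul]
    apply mul_le_mul_of_nonneg_left _ (abs_nonneg _)
    rw [abs_le]
    constructor <;> linarith [c3.1, c3.2]
  have e : ∑ n ∈ Icc 1 N, g (ms α c n) - ρ * N = (∑ n ∈ Icc 1 N, g (ms α c n) - a * S) + a * (S - ρ * W) +
      ρ * (a * W - N) := by ring
  rw [e]
  have t1 := abs_add_le ((∑ n ∈ Icc 1 N, g (ms α c n) - a * S) + a * (S - ρ * W)) (ρ * (a * W - N))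
  have t2 := abs_add_le (∑ n ∈ Icc 1 N, g (ms α c n) - a * S) (a * (S - ρ * W))
  have hLU : 0 < L ^ U := by positivity
  have f1 : (N : ℝ) ^ (1 - κ) ≤ (1 / 3) * (N / L ^ U) := by
    rw [← mul_div_assoc, le_div_iff₀ hLU]
    have h4 : (N : ℝ) = (N : ℝ) ^ (1 - κ) * (N : ℝ) ^ κ := by
      rw [← Real.rpow_add hN0]; simp
    have h5 : 0 ≤ (N : ℝ) ^ (1 - κ) := by positivity
    have h6 := mul_le_mul_of_nonneg_left b2 h5
    nlinarith
  have f2 : (N : ℝ) / L ^ (U + 1) ≤ (1 / 3) * (N / L ^ U) := by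
    rw [← mul_div_assoc, div_le_div_iff₀ (by positivity) hLU, pow_succ]
    have h5 : 0 ≤ (N : ℝ) * L ^ U := by positivity
    nlinarith
  have f3 : |ρ| * a ≤ (1 / 3) * (N / L ^ U) := by
    rw [← mul_div_assoc, le_div_iff₀ hLU]
    rw [Real.rpow_one] at b3
    linarith
  linarith

/-- **Power savings along the sequence.** -/
theorem seq_pow {α c ρ : ℝ} (hα : 0 < α) (hc : 1 < c) (g : ℕ → ℝ) (hL : Law α c g)
    (hu : ∃ δ : ℝ, 0 < δ ∧ ∃ C : ℝ, ∀ t : ℕ, 1 ≤ t → |∑ s ∈ Ioc 0 t, (g s - ρ)| ≤ C * (t : ℝ) ^ (1 - δ)) :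
    ∃ δ : ℝ, 0 < δ ∧ ∃ N0 : ℕ, ∀ N : ℕ, N0 ≤ N →
      |∑ n ∈ Icc 1 N, g (ms α c n) - ρ * N| ≤ (N : ℝ) ^ (1 - δ) := by
  have hc0 : 0 < c := by linarith
  obtain ⟨κ, hκ, hκ1, N1, h1⟩ := hL
  obtain ⟨δ, hδ, C, h2⟩ := hu
  set δ₁ : ℝ := min δ (1 / (2 * c)) with hδ₁
  have hδ10 : 0 < δ₁ := lt_min hδ (by positivity)
  have hδ1c : δ₁ < 1 / c := by
    refine lt_of_le_of_lt (min_le_right _ _) ?_
    rw [div_lt_div_iff₀ (by positivity) hc0]
    linarith
  obtain ⟨K, hK, h3⟩ := wt_pow hc (fun t => g t - ρ) δ₁ |C| hδ10 hδ1c (abs_nonneg _) (fun t ht => by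
    refine (h2 t ht).trans ((mul_le_mul_of_nonneg_right (le_abs_self C) (by positivity)).trans ?_)
    apply mul_le_mul_of_nonneg_left _ (abs_nonneg _)
    apply Real.rpow_le_rpow_of_exponent_le (by exact_mod_cast ht)
    linarith [min_le_left δ (1 / (2 * c))])
  set a := α ^ (-(1 / c)) with ha
  have ha0 : 0 < a := Real.rpow_pos_of_pos hα _
  set η : ℝ := min κ (c * δ₁) with hη
  have hη0 : 0 < η := lt_min hκ (by positivity)
  -- the constant
  set A : ℝ := 1 + a * K * (α ^ (1 / c)) ^ (1 - c * δ₁) + |ρ| * a with hA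
  have hA0 : 0 < A := by positivity
  have hlim : Tendsto (fun N : ℕ => (N : ℝ) ^ (η / 2)) atTop atTop :=
    (tendsto_rpow_atTop (by positivity)).comp tendsto_natCast_atTop_atTop
  obtain ⟨N2, h4⟩ := (hlim.eventually (eventually_ge_atTop A)).exists_forall_of_atTop
  refine ⟨η / 2, by positivity, max (max N1 N2) 1, fun N hN => ?_⟩
  have hN1 : N1 ≤ N := ((le_max_left _ _).trans (le_max_left _ _)).trans hN
  have hN2 : N2 ≤ N := ((le_max_right _ _).trans (le_max_left _ _)).trans hN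
  have hN3 : 1 ≤ N := (le_max_right _ _).trans hN
  have hN0 : (0 : ℝ) < N := by exact_mod_cast (by omega : 0 < N)
  have hN1r : (1 : ℝ) ≤ N := by exact_mod_cast hN3
  have c1 := h1 N hN1
  have c2 := h3 (ms α c N)
  rw [sum_sub_const] at c2
  have c3 := wsum hα hc N
  rw [← ha] at c3
  have c4 : a * ((ms α c N : ℕ) : ℝ) ^ (1 / c) ≤ N := ms_le hα hc N
  set S := ∑ t ∈ Ioc 0 (ms α c N), wt c t * g t with hS
  set W := ∑ t ∈ Ioc 0 (ms α c N), wt c t with hW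
  have hcδ : 0 < 1 - c * δ₁ := by
    rw [lt_div_iff₀ hc0] at hδ1c
    linarith
  have hinv : a * α ^ (1 / c) = 1 := by
    rw [ha, ← Real.rpow_add hα]; simp
  have d0 : ((ms α c N : ℕ) : ℝ) ^ (1 / c - δ₁) ≤ (α ^ (1 / c)) ^ (1 - c * δ₁) * (N : ℝ) ^ (1 - c * δ₁) := by
    have h5 : ((ms α c N : ℕ) : ℝ) ^ (1 / c - δ₁) = (((ms α c N : ℕ) : ℝ) ^ (1 / c)) ^ (1 - c * δ₁) := by
      rw [← Real.rpow_mul (Nat.cast_nonneg _)]
      congr 1
      field_simp
    rw [h5, ← Real.mul_rpow (by positivity) hN0.le]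
    apply Real.rpow_le_rpow (by positivity) _ hcδ.le
    have h6 := mul_le_mul_of_nonneg_left c4 (show 0 ≤ α ^ (1 / c) by positivity)
    calc ((ms α c N : ℕ) : ℝ) ^ (1 / c) = (a * α ^ (1 / c)) * ((ms α c N : ℕ) : ℝ) ^ (1 / c) := by rw [hinv, one_mul]
      _ = α ^ (1 / c) * (a * ((ms α c N : ℕ) : ℝ) ^ (1 / c)) := by ring
      _ ≤ _ := h6
  have d1 : |a * (S - ρ * W)| ≤ a * K * (α ^ (1 / c)) ^ (1 - c * δ₁) * (N : ℝ) ^ (1 - η) := by
    rw [abs_mul, abs_of_pos ha0]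
    refine (mul_le_mul_of_nonneg_left (c2.trans (mul_le_mul_of_nonneg_left d0 hK)) ha0.le).trans ?_
    have h5 : (N : ℝ) ^ (1 - c * δ₁) ≤ (N : ℝ) ^ (1 - η) := by
      apply Real.rpow_le_rpow_of_exponent_le hN1r
      linarith [min_le_right κ (c * δ₁)]
    calc a * (K * ((α ^ (1 / c)) ^ (1 - c * δ₁) * (N : ℝ) ^ (1 - c * δ₁))) =
        a * K * (α ^ (1 / c)) ^ (1 - c * δ₁) * (N : ℝ) ^ (1 - c * δ₁) := by ring
      _ ≤ _ := mul_le_mul_of_nonneg_left h5 (by positivity)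
  have d3 : (1 : ℝ) ≤ (N : ℝ) ^ (1 - η) := by
    apply Real.one_le_rpow hN1r
    have := min_le_left κ (c * δ₁)
    linarith
  have d2 : |ρ * (a * W - N)| ≤ |ρ| * a * (N : ℝ) ^ (1 - η) := by
    have h5 : |ρ * (a * W - N)| ≤ |ρ| * a := by
      rw [abs_mul]
      apply mul_le_mul_of_nonneg_left _ (abs_nonneg _)
      rw [abs_le]
      constructor <;> linarith [c3.1, c3.2]
    have h6 : 0 ≤ |ρ| * a := by positivity
    nlinarith
  have d4 : (N : ℝ) ^ (1 - κ) ≤ (N : ℝ) ^ (1 - η) := by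
    apply Real.rpow_le_rpow_of_exponent_le hN1r
    linarith [min_le_left κ (c * δ₁)]
  have e : ∑ n ∈ Icc 1 N, g (ms α c n) - ρ * N = (∑ n ∈ Icc 1 N, g (ms α c n) - a * S) + a * (S - ρ * W) +
      ρ * (a * W - N) := by ring
  rw [e]
  have t1 := abs_add_le ((∑ n ∈ Icc 1 N, g (ms α c n) - a * S) + a * (S - ρ * W)) (ρ * (a * W - N))
  have t2 := abs_add_le (∑ n ∈ Icc 1 N, g (ms α c n) - a * S) (a * (S - ρ * W))
  have f1 : A * (N : ℝ) ^ (1 - η) ≤ (N : ℝ) ^ (1 - η / 2) := by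
    have h5 : (N : ℝ) ^ (1 - η / 2) = (N : ℝ) ^ (η / 2) * (N : ℝ) ^ (1 - η) := by
      rw [← Real.rpow_add hN0]
      congr 1
      ring
    rw [h5]
    exact mul_le_mul_of_nonneg_right (h4 N hN2) (by positivity)
  refine le_trans ?_ f1
  rw [hA, add_mul, add_mul, one_mul]
  linarith

/-- **Back: from power savings along the sequence to the partial sums.** -/
theorem seq_pow_rev {α c ρ : ℝ} (hα : 0 < α) (hc : 1 < c) (hρ : 0 ≤ ρ) (g : ℕ → ℝ) (hg : ∀ t, 0 ≤ g t) (hL : Law α c g)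
    (hu : ∃ δ : ℝ, 0 < δ ∧ ∃ N0 : ℕ, ∀ N : ℕ, N0 ≤ N →
      |∑ n ∈ Icc 1 N, g (ms α c n) - ρ * N| ≤ (N : ℝ) ^ (1 - δ)) :
    ∃ δ : ℝ, 0 < δ ∧ ∃ C : ℝ, ∀ t : ℕ, 1 ≤ t → |∑ s ∈ Ioc 0 t, (g s - ρ)| ≤ C * (t : ℝ) ^ (1 - δ) := by
  have hc0 : 0 < c := by linarith
  obtain ⟨κ, hκ, hκ1, N1, h1⟩ := hL
  obtain ⟨δ, hδ, N2, h2⟩ := hu
  set a := α ^ (-(1 / c)) with ha
  have ha0 : 0 < a := Real.rpow_pos_of_pos hα _
  set η : ℝ := min κ δ with hη
  have hη0 : 0 < η := lt_min hκ hδ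
  have hη1 : η < 1 := lt_of_le_of_lt (min_le_left _ _) hκ1
  set G : ℕ → ℝ := fun Y => ∑ t ∈ Ioc 0 Y, wt c t * g t with hG
  set W : ℕ → ℝ := fun Y => ∑ t ∈ Ioc 0 Y, wt c t with hW
  have hGmono : ∀ {Y Z : ℕ}, Y ≤ Z → G Y ≤ G Z := fun {Y Z} h =>
    Finset.sum_le_sum_of_subset_of_nonneg (Finset.Ioc_subset_Ioc_right h)
      (fun t _ _ => mul_nonneg (wt_nonneg hc t) (hg t))
  have hWmono : ∀ {Y Z : ℕ}, Y ≤ Z → W Y ≤ W Z := fun {Y Z} h =>
    Finset.sum_le_sum_of_subset_of_nonneg (Finset.Ioc_subset_Ioc_right h)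
      (fun t _ _ => wt_nonneg hc t)
  -- at the points of the sequence
  have h3 : ∀ N : ℕ, max (max N1 N2) 1 ≤ N → |a * G (ms α c N) - ρ * N| ≤ 2 * (N : ℝ) ^ (1 - η) := by
    intro N hN
    have hN1 : N1 ≤ N := ((le_max_left _ _).trans (le_max_left _ _)).trans hN
    have hN2 : N2 ≤ N := ((le_max_right _ _).trans (le_max_left _ _)).trans hN
    have hN3 : (1 : ℝ) ≤ N := by exact_mod_cast (le_max_right _ _).trans hN
    have b1 := h1 N hN1
    have b2 := h2 N hN2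
    have b3 : (N : ℝ) ^ (1 - κ) ≤ (N : ℝ) ^ (1 - η) :=
      Real.rpow_le_rpow_of_exponent_le hN3 (by linarith [min_le_left κ δ])
    have b4 : (N : ℝ) ^ (1 - δ) ≤ (N : ℝ) ^ (1 - η) :=
      Real.rpow_le_rpow_of_exponent_le hN3 (by linarith [min_le_right κ δ])
    rw [abs_le] at b1 b2 ⊢
    constructor <;> linarith [b1.1, b1.2, b2.1, b2.2]
  -- all points
  have h4 : ∀ N Y : ℕ, max (max N1 N2) 1 ≤ N → ms α c N ≤ Y → Y ≤ ms α c (N + 1) →
      |a * (G Y - ρ * W Y)| ≤ (4 + ρ * (1 + a)) * (N + 1 : ℝ) ^ (1 - η) := by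
    intro N Y hN hY1 hY2
    have hN3 : (1 : ℝ) ≤ N := by exact_mod_cast (le_max_right _ _).trans hN
    have b1 := h3 N hN
    have b2 := h3 (N + 1) (by omega)
    push_cast at b2
    have b3 := wsum hα hc N
    have b4 := wsum hα hc (N + 1)
    rw [← ha] at b3 b4
    push_cast at b4
    have b5 : (N : ℝ) ^ (1 - η) ≤ (N + 1 : ℝ) ^ (1 - η) := Real.rpow_le_rpow (by positivity) (by linarith) (by linarith)
    have b6 : (1 : ℝ) ≤ (N + 1 : ℝ) ^ (1 - η) := Real.one_le_rpow (by linarith) (by linarith)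
    have b7 := mul_le_mul_of_nonneg_left (hGmono hY1) ha0.le
    have b8 := mul_le_mul_of_nonneg_left (hGmono hY2) ha0.le
    have b9 := mul_le_mul_of_nonneg_left (hWmono hY1) ha0.le
    have b10 := mul_le_mul_of_nonneg_left (hWmono hY2) ha0.le
    have b11 : ρ * (N - a) ≤ ρ * (a * W Y) := mul_le_mul_of_nonneg_left (by simp only [hW] at b9 ⊢; linarith [b3.1]) hρ
    have b12 : ρ * (a * W Y) ≤ ρ * (N + 1) := mul_le_mul_of_nonneg_left (by simp only [hW] at b10 ⊢; linarith [b4.2]) hρ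
    have b13 : ρ * (1 + a) ≤ ρ * (1 + a) * (N + 1 : ℝ) ^ (1 - η) := by
      have : 0 ≤ ρ * (1 + a) := by positivity
      nlinarith
    have b14 : 0 ≤ ρ * a := by positivity
    rw [abs_le] at b1 b2 ⊢
    constructor
    · have := b1.1
      nlinarith
    · have := b2.2
      nlinarith
  -- choice of `N`
  set N3 := max (max N1 N2) 1 with hN3
  have h5 : ∀ Y : ℕ, ms α c N3 ≤ Y → ∃ N : ℕ, N3 ≤ N ∧ ms α c N ≤ Y ∧ Y ≤ ms α c (N + 1) := by
    intro Y hY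
    classical
    have hex : ∃ N : ℕ, Y < ms α c N := by
      obtain ⟨M, hM⟩ := (ms_ge hα hc).exists_forall_of_atTop
      refine ⟨max M (Y + 1), ?_⟩
      have := hM (max M (Y + 1)) (le_max_left _ _)
      have h6 := le_max_right M (Y + 1)
      omega
    set M := Nat.find hex with hM
    have hM1 : Y < ms α c M := Nat.find_spec hex
    have hM2 : N3 < M := by
      by_contra hcon
      push Not at hcon
      have := ms_mono hα hc0.le hcon
      omega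
    refine ⟨M - 1, by omega, ?_, ?_⟩
    · have := Nat.find_min hex (show M - 1 < M by omega)
      omega
    · rw [Nat.sub_add_cancel (by omega)]
      exact hM1.le
  -- the weighted sums
  set β : ℝ := (1 - η) / c with hβ
  have hβ0 : 0 ≤ β := div_nonneg (by linarith) hc0.le
  set A : ℝ := (4 + ρ * (1 + a)) / a * (2 * (1 + a)) ^ (1 - η) * 1 with hA
  have h6 : ∀ Y : ℕ, max (ms α c N3) 1 ≤ Y → |G Y - ρ * W Y| ≤ (4 + ρ * (1 + a)) / a * (2 * (1 + a)) ^ (1 - η) * ((Y : ℝ) + 1) ^ β := by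
    intro Y hY
    obtain ⟨N, hN, hY1, hY2⟩ := h5 Y ((le_max_left _ _).trans hY)
    have hNpos : (1 : ℝ) ≤ N := by exact_mod_cast (le_max_right (max N1 N2) 1).trans hN
    have b1 := h4 N Y hN hY1 hY2
    rw [abs_mul, abs_of_pos ha0] at b1
    have b2 : (N : ℝ) ≤ a * ((Y : ℝ) + 1) ^ (1 / c) := by
      have b3 : xs α c N < (Y : ℝ) + 1 := by
        have b4 : xs α c N < ((ms α c N : ℕ) : ℝ) + 1 := Nat.lt_floor_add_one _
        have b5 : ((ms α c N : ℕ) : ℝ) ≤ Y := by exact_mod_cast hY1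
        linarith
      have b6 := Real.rpow_le_rpow (xs_nonneg hα N) b3.le (show 0 ≤ 1 / c by positivity)
      have e : a * (xs α c N) ^ (1 / c) = N := by
        unfold xs
        rw [Real.mul_rpow hα.le (by positivity), ← Real.rpow_mul (Nat.cast_nonneg N),
          mul_one_div_cancel hc0.ne', Real.rpow_one, ← mul_assoc, ha, ← Real.rpow_add hα]
        simp
      rw [← e]
      exact mul_le_mul_of_nonneg_left b6 ha0.le
    have b7 : (1 : ℝ) ≤ ((Y : ℝ) + 1) ^ (1 / c) := Real.one_le_rpow (by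
      have : (0 : ℝ) ≤ Y := Nat.cast_nonneg _
      linarith) (by positivity)
    have b8 : (N : ℝ) + 1 ≤ 2 * (1 + a) * ((Y : ℝ) + 1) ^ (1 / c) := by nlinarith
    have b9 : ((N : ℝ) + 1) ^ (1 - η) ≤ (2 * (1 + a)) ^ (1 - η) * ((Y : ℝ) + 1) ^ β := by
      have b10 : ((Y : ℝ) + 1) ^ β = (((Y : ℝ) + 1) ^ (1 / c)) ^ (1 - η) := by
        rw [← Real.rpow_mul (by positivity)]
        congr 1
        rw [hβ]
        ring
      rw [b10, ← Real.mul_rpow (by positivity) (by positivity)]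
      exact Real.rpow_le_rpow (by positivity) b8 (by linarith)
    have b11 : |G Y - ρ * W Y| ≤ (4 + ρ * (1 + a)) / a * ((N : ℝ) + 1) ^ (1 - η) := by
      rw [div_mul_eq_mul_div, le_div_iff₀ ha0]
      linarith
    refine b11.trans ?_
    rw [mul_assoc]
    exact mul_le_mul_of_nonneg_left b9 (by positivity)
  -- constants for the small `Y`
  set Y0 := max (ms α c N3) 1 with hY0
  set Bd : ℝ := G Y0 + ρ * W Y0 with hBd
  set A1 : ℝ := (4 + ρ * (1 + a)) / a * (2 * (1 + a)) ^ (1 - η) * 2 ^ β + Bd with hA1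
  have hG0 : ∀ Y, 0 ≤ G Y := fun Y => Finset.sum_nonneg fun t _ => mul_nonneg (wt_nonneg hc t) (hg t)
  have hW0 : ∀ Y, 0 ≤ W Y := fun Y => Finset.sum_nonneg fun t _ => wt_nonneg hc t
  have hBd0 : 0 ≤ Bd := add_nonneg (hG0 _) (mul_nonneg hρ (hW0 _))
  have hA10 : 0 ≤ A1 := by positivity
  have h7 : ∀ Y : ℕ, 1 ≤ Y → |∑ t ∈ Ioc 0 Y, wt c t * (g t - ρ)| ≤ A1 * (Y : ℝ) ^ β := by
    intro Y hY
    have hYr : (1 : ℝ) ≤ Y := by exact_mod_cast hY
    rw [sum_sub_const]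
    change |G Y - ρ * W Y| ≤ _
    by_cases hYY : Y0 ≤ Y
    · refine (h6 Y hYY).trans ?_
      have b1 : ((Y : ℝ) + 1) ^ β ≤ 2 ^ β * (Y : ℝ) ^ β := by
        rw [← Real.mul_rpow (by norm_num) (by positivity)]
        exact Real.rpow_le_rpow (by positivity) (by linarith) hβ0
      have b2 : 0 ≤ (4 + ρ * (1 + a)) / a * (2 * (1 + a)) ^ (1 - η) := by positivity
      have b3 := mul_le_mul_of_nonneg_left b1 b2
      refine b3.trans ?_
      rw [hA1, add_mul, ← mul_assoc]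
      have b4 : 0 ≤ Bd * (Y : ℝ) ^ β := by positivity
      linarith
    · push Not at hYY
      have b1 := hGmono hYY.le
      have b2 := mul_le_mul_of_nonneg_left (hWmono hYY.le) hρ
      have b3 : |G Y - ρ * W Y| ≤ Bd := by
        have b4 := hG0 Y
        have b5 := mul_nonneg hρ (hW0 Y)
        rw [abs_le, hBd]
        have b6 := hG0 Y0
        have b7 := mul_nonneg hρ (hW0 Y0)
        constructor <;> linarith
      have b4 : (1 : ℝ) ≤ (Y : ℝ) ^ β := Real.one_le_rpow hYr hβ0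
      have b5 : Bd ≤ A1 := by
        rw [hA1]
        have : 0 ≤ (4 + ρ * (1 + a)) / a * (2 * (1 + a)) ^ (1 - η) * 2 ^ β := by positivity
        linarith
      nlinarith
  refine ⟨η / c, by positivity, 2 * A1 * c, fun t ht => ?_⟩
  have h8 := unwt_pow hc (fun t => g t - ρ) β A1 hβ0 hA10 h7 t ht
  have e : β + 1 - 1 / c = 1 - η / c := by
    rw [hβ]
    ring
  rw [e] at h8
  exact h8

end Pool.Agent.U909.PW
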